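import Pool.Agent.E8helper46.AW.Inv

/-!
# From real blocks to symmetric class functions, modulo two

(adapted from `Pool/Agent/Y63/NV/Base48.lean`)
-/

set_option autoImplicit false
set_option linter.unusedSectionVars false

open scoped BigOperators Classical

noncomputable section

namespace Pool.Agent.E8helper46.AW

open Pool.Agent.Y63.NV
open Pool.Agent.Y63.NV.B48B
open Pool.Agent.Y63.AWC (IsIrreducibleCharacter pSubgroupSetoid)

/-- a block of `⊤` as a block of the group -/
def flat {G F : Type} [Group G] (B : ((⊤ : Subgroup G) → F) → F) : (G → F) → F :=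
  fun f => B (fun x : (⊤ : Subgroup G) => f x)

theorem flat_vee {G F : Type} [Group G] (B : ((⊤ : Subgroup G) → F) → F) :
    flat (veeB B) = veeB (flat B) := rfl

/-- the parity form of the blockwise weight conjecture for the real blocks of `G` -/
def Par (p : ℕ) {F : Type} [Field F] (red : integralClosure ℤ ℂ →+* F) (G : Type) [Group G] : Prop :=
  ∀ B : (G → F) → F, IsBlock B → (∀ f : G → F, IsClassFun f → B (vee f) = B f) →
    numIrrBlock B ≡ ∑ᶠ c : Quotient (pSubgroupSetoid p G), numWtBlock p red c.out.1 B [MOD 2]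

/-- the dual of a functional on the class functions -/
def vS {G F : Type} [Group G] [Field F] (β : CF G F → F) : CF G F → F :=
  fun f => β ⟨vee f.1, vee_class f.2⟩

theorem vS_vS {G F : Type} [Group G] [Field F] (β : CF G F → F) : vS (vS β) = β := by
  funext f
  unfold vS
  congr 1
  exact Subtype.ext (vee_vee f.1)

theorem vS_rs {G F : Type} [Group G] [Field F] (B : (G → F) → F) : vS (rs B) = rs (veeB B) := rfl

theorem rs_congr_irr {G F : Type} [Group G] [Field F] {B B' : (G → F) → F} (h : rs B = rs B') :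
    numIrrBlock B = numIrrBlock B' := by
  unfold numIrrBlock
  refine Nat.card_congr (Equiv.subtypeEquivRight fun φ => and_congr_right fun _ => ?_)
  refine forall_congr' fun f => ?_
  constructor
  · intro h1 hf x
    rw [h1 hf x, show B f = B' f from congrFun h ⟨f, hf⟩]
  · intro h1 hf x
    rw [h1 hf x, show B f = B' f from congrFun h ⟨f, hf⟩]

theorem base2 {p : ℕ} [Fact p.Prime] {F : Type} [Field F] [IsAlgClosed F] [CharP F p]
    (red : integralClosure ℤ ℂ →+* F) (G : Type) [Group G] [Finite G] (hpar : Par p red G)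
    (z : G → F) (hz : IsClassFun z) (hs : vee z = z) (c : F) :
    (2 : ℤ) * Nat.card G ∣ Lsum (⊤ : Subgroup G) ⊤ z c - Wsum p red ⊤ ⊤ z c := by
  have h0 : S_IRR := Pool.Agent.Y914.NV.irr
  have h1 : S_SCHUR := schur'
  have h2 : S_WBLK := wblk'
  have : Fintype G := Fintype.ofFinite G
  -- the irreducible traces
  let X : Type := {φ : (⊤ : Subgroup G) → F // IsIrrTrace φ ∧ IsInvUnder ⊤ φ}
  have hX : Finite X := ((h0 F (⊤ : Subgroup G)).1.subset (fun φ h => h.1)).to_subtype
  have hBX : ∀ φ : X, (∃ x, φ.1 x ≠ 0) ∧ ∃ B : ((⊤ : Subgroup G) → F) → F, IsBlock B ∧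
      ∀ f : (⊤ : Subgroup G) → F, IsClassFun f → ∀ x, ∑ᶠ g, f g * φ.1 (g * x) = B f * φ.1 x :=
    fun φ => h1 F (⊤ : Subgroup G) φ.1 φ.2.1
  choose hne BX hBX1 hBX2 using hBX
  -- the weights
  let P : Type := {Q : Subgroup G // IsPGroup p Q}
  have hP : Finite P := inferInstanceAs (Finite {Q : Subgroup G // IsPGroup p Q})
  have : Fintype P := Fintype.ofFinite P
  let Y : P → Type := fun Q => {χ : Subgroup.normalizer (Q.1 : Set G) → ℂ //
    IsWt p (Q.1.subgroupOf (Subgroup.normalizer (Q.1 : Set G))) χ}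
  have hY : ∀ Q, Finite (Y Q) := fun Q =>
    ((h0 ℂ (Subgroup.normalizer (Q.1 : Set G))).1.subset (fun χ h => h.irr)).to_subtype
  let BY : ∀ Q : P, Y Q → ((⊤ : Subgroup G) → F) → F := fun Q χ f =>
    centralValue red χ.1 (fun x => sh f x)
  have hBY : ∀ Q χ, IsBlock (BY Q χ) := fun Q χ =>
    block_top (h2 p F red G Q.1 χ.1 Q.2 χ.2)
  have hfX : Fintype X := Fintype.ofFinite X
  have hfY : ∀ Q, Fintype (Y Q) := fun Q => Fintype.ofFinite (Y Q)
  let rX : X → (CF (⊤ : Subgroup G) F → F) := fun φ => rs (BX φ)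
  let rY : ∀ Q, Y Q → (CF (⊤ : Subgroup G) F → F) := fun Q χ => rs (BY Q χ)
  let S₀ : Finset (CF (⊤ : Subgroup G) F → F) := Finset.univ.image rX ∪
    (Finset.univ : Finset P).biUnion (fun Q => Finset.univ.image (rY Q))
  let S : Finset (CF (⊤ : Subgroup G) F → F) := S₀ ∪ S₀.image vS
  have hSX : ∀ φ, rX φ ∈ S := fun φ => Finset.mem_union_left _
    (Finset.mem_union_left _ (Finset.mem_image_of_mem _ (Finset.mem_univ _)))
  have hSY : ∀ Q χ, rY Q χ ∈ S := fun Q χ => Finset.mem_union_left _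
    (Finset.mem_union_right _ (Finset.mem_biUnion.2 ⟨Q, Finset.mem_univ _,
      Finset.mem_image_of_mem _ (Finset.mem_univ _)⟩))
  have hSv : ∀ β ∈ S, vS β ∈ S := by
    intro β hβ
    rcases Finset.mem_union.1 hβ with h | h
    · exact Finset.mem_union_right _ (Finset.mem_image_of_mem _ h)
    · obtain ⟨γ, hγ, rfl⟩ := Finset.mem_image.1 h
      rw [vS_vS]
      exact Finset.mem_union_left _ hγ
  have hS₀ : ∀ β ∈ S₀, ∃ B : ((⊤ : Subgroup G) → F) → F, IsBlock B ∧ rs B = β := by
    intro β hβ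
    rcases Finset.mem_union.1 hβ with h | h
    · obtain ⟨φ, -, rfl⟩ := Finset.mem_image.1 h
      exact ⟨BX φ, hBX1 φ, rfl⟩
    · obtain ⟨Q, -, h⟩ := Finset.mem_biUnion.1 h
      obtain ⟨χ, -, rfl⟩ := Finset.mem_image.1 h
      exact ⟨BY Q χ, hBY Q χ, rfl⟩
  have hS : ∀ β ∈ S, ∃ B : ((⊤ : Subgroup G) → F) → F, IsBlock B ∧ rs B = β := by
    intro β hβ
    rcases Finset.mem_union.1 hβ with h | h
    · exact hS₀ β h
    · obtain ⟨γ, hγ, rfl⟩ := Finset.mem_image.1 h
      obtain ⟨B, hB, rfl⟩ := hS₀ γ hγ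
      exact ⟨veeB B, veeB_block hB, (vS_rs B).symm⟩
  -- the numbers for a block
  have hfQ : Fintype (Quotient (pSubgroupSetoid p G)) := Fintype.ofFinite _
  let nX : (CF (⊤ : Subgroup G) F → F) → ℕ := fun β => Nat.card {φ : X // rX φ = β}
  let nY : (CF (⊤ : Subgroup G) F → F) → ℕ := fun β =>
    ∑ d : Quotient (pSubgroupSetoid p G), Nat.card {χ : Y d.out // rY d.out χ = β}
  have keyX : ∀ B : ((⊤ : Subgroup G) → F) → F, IsBlock B → nX (rs B) = numIrrBlock (flat B) := by
    intro B hB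
    have e1 : numIBr (⊤ : Subgroup G) B = Nat.card {φ : X // rX φ = rs B} := by
      unfold numIBr
      refine Nat.card_congr
        { toFun := fun φ => ⟨⟨φ.1, φ.2.1, φ.2.2.1⟩, ?_⟩
          invFun := fun φ => ⟨φ.1.1, φ.1.2.1, φ.1.2.2, ?_⟩
          left_inv := fun φ => rfl
          right_inv := fun φ => rfl }
      · funext f
        obtain ⟨x, hx⟩ := hne ⟨φ.1, φ.2.1, φ.2.2.1⟩
        have h4 := hBX2 ⟨φ.1, φ.2.1, φ.2.2.1⟩ f.1 f.2 x
        have h5 := φ.2.2.2 f.1 f.2 x
        exact mul_right_cancel₀ hx (h4.symm.trans h5)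
      · intro f hf x
        have h4 := hBX2 φ.1 f hf x
        have h5 : BX φ.1 f = B f := congrFun φ.2 ⟨f, hf⟩
        rw [← h5]
        exact h4
    exact e1.symm.trans (numIBr_eq B)
  have keyY : ∀ B : ((⊤ : Subgroup G) → F) → F, IsBlock B → nY (rs B) =
      ∑ᶠ d : Quotient (pSubgroupSetoid p G), numWtBlock p red d.out.1 (flat B) := by
    intro B hB
    have e2 : ∀ Q : P, numDz p red (⊤ : Subgroup G) Q.1 B = Nat.card {χ : Y Q // rY Q χ = rs B} := by
      intro Q
      unfold numDz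
      refine Nat.card_congr
        { toFun := fun χ => ⟨⟨χ.1, χ.2.1⟩, ?_⟩
          invFun := fun χ => ⟨χ.1.1, χ.1.2, ?_⟩
          left_inv := fun χ => rfl
          right_inv := fun χ => rfl }
      · funext f
        exact χ.2.2 (sh f.1) (sh_inZ f.2)
      · intro w hw
        exact congrFun χ.2 ⟨fun x : (⊤ : Subgroup G) => w x, un_class hw.conj⟩
    rw [finsum_eq_sum_of_fintype]
    refine Finset.sum_congr rfl fun d _ => ?_
    rw [← e2 d.out, numDz_eq]
    rfl
  have keyV : ∀ β ∈ S, nX (vS β) = nX β ∧ nY (vS β) = nY β := by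
    intro β hβ
    obtain ⟨B, hB, rfl⟩ := hS β hβ
    rw [vS_rs, keyX _ (veeB_block hB), keyX _ hB, keyY _ (veeB_block hB), keyY _ hB, flat_vee,
      numIrrBlock_vee]
    refine ⟨rfl, finsum_congr fun d => ?_⟩
    exact numWtBlock_vee p red d.out.1 (flat B)
  have keyP : ∀ β ∈ S, vS β = β → nX β ≡ nY β [MOD 2] := by
    intro β hβ hv
    obtain ⟨B, hB, rfl⟩ := hS β hβ
    rw [keyX _ hB, keyY _ hB]
    refine hpar (flat B) (Pool.Agent.Y63.NV.B286.flat_block hB) fun f hf => ?_
    exact congrFun hv ⟨fun x : (⊤ : Subgroup G) => f x, un_class hf⟩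
  -- the sums
  let zC : CF (⊤ : Subgroup G) F := ⟨fun x : (⊤ : Subgroup G) => z x, un_class hz⟩
  have e3 : Lnum (⊤ : Subgroup G) ⊤ z c = Nat.card {φ : X // rX φ zC = c} := by
    unfold Lnum
    refine Nat.card_congr
      { toFun := fun φ => ⟨⟨φ.1, φ.2.1, φ.2.2.1⟩, ?_⟩
        invFun := fun φ => ⟨φ.1.1, φ.1.2.1, φ.1.2.2, ?_⟩
        left_inv := fun φ => rfl
        right_inv := fun φ => rfl }
    · obtain ⟨x, hx⟩ := hne ⟨φ.1, φ.2.1, φ.2.2.1⟩
      have h4 := hBX2 ⟨φ.1, φ.2.1, φ.2.2.1⟩ zC.1 zC.2 x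
      have h5 := φ.2.2.2 x
      exact mul_right_cancel₀ hx (h4.symm.trans h5)
    · intro x
      have h4 := hBX2 φ.1 zC.1 zC.2 x
      have h5 : BX φ.1 zC.1 = c := φ.2
      exact h4.trans (congrArg (fun t => t * φ.1.1 x) h5)
  have e4 : ∀ Q : P, Nw p red (Q.1.subgroupOf (Subgroup.normalizer (Q.1 : Set G)))
      (fun x => z x) c = Nat.card {χ : Y Q // rY Q χ zC = c} := by
    intro Q
    unfold Nw
    exact Nat.card_congr
      { toFun := fun χ => ⟨⟨χ.1, χ.2.1⟩, χ.2.2⟩
        invFun := fun χ => ⟨χ.1.1, χ.1.2, χ.2⟩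
        left_inv := fun χ => rfl
        right_inv := fun χ => rfl }
  have e5 : Lnum (⊤ : Subgroup G) ⊤ z c = ∑ β ∈ S, if β zC = c then nX β else 0 := by
    rw [e3]
    exact card_fib rX S hSX (fun β => β zC = c)
  have e5' : ∑ᶠ d : Quotient (pSubgroupSetoid p G),
      Nw p red (d.out.1.subgroupOf (Subgroup.normalizer (d.out.1 : Set G))) (fun x => z x) c =
      ∑ β ∈ S, if β zC = c then nY β else 0 := by
    rw [finsum_eq_sum_of_fintype]
    have e6 : ∀ d : Quotient (pSubgroupSetoid p G),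
        Nw p red (d.out.1.subgroupOf (Subgroup.normalizer (d.out.1 : Set G))) (fun x => z x) c =
        ∑ β ∈ S, if β zC = c then Nat.card {χ : Y d.out // rY d.out χ = β} else 0 := by
      intro d
      rw [e4 d.out]
      exact card_fib (rY d.out) S (hSY d.out) (fun β => β zC = c)
    rw [Finset.sum_congr rfl fun d _ => e6 d, Finset.sum_comm]
    refine Finset.sum_congr rfl fun β hβ => ?_
    by_cases h : β zC = c
    · simp only [if_pos h]
      rfl
    · simp only [if_neg h]
      rw [Finset.sum_const_zero]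
  have hzC : (⟨vee zC.1, vee_class zC.2⟩ : CF (⊤ : Subgroup G) F) = zC := by
    apply Subtype.ext
    funext x
    exact congrFun hs x
  -- the parity
  have hpar2 : (2 : ℤ) ∣ ((Lnum (⊤ : Subgroup G) ⊤ z c : ℕ) : ℤ) -
      ((∑ᶠ d : Quotient (pSubgroupSetoid p G), Nw p red
        (d.out.1.subgroupOf (Subgroup.normalizer (d.out.1 : Set G))) (fun x => z x) c : ℕ) : ℤ) := by
    rw [e5, e5']
    have h7 : ((∑ β ∈ S, if β zC = c then ((nX β : ℤ) - (nY β : ℤ)) else 0 : ℤ) : ZMod 2) = 0 := by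
      rw [Int.cast_sum]
      refine Finset.sum_involution (fun β _ => vS β) ?_ ?_ (fun β hβ => hSv β hβ)
        (fun β _ => vS_vS β)
      · intro β hβ
        have h8 : vS β zC = β zC := by
          unfold vS
          rw [hzC]
        rw [h8, (keyV β hβ).1, (keyV β hβ).2]
        exact CharTwo.add_self_eq_zero _
      · intro β hβ hne' hv
        apply hne'
        have h9 := keyP β hβ hv
        split_ifs
        · rw [ZMod.intCast_zmod_eq_zero_iff_dvd] 
          exact (Nat.modEq_iff_dvd.mp h9.symm)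
        · exact Int.cast_zero
    have h10 := (ZMod.intCast_zmod_eq_zero_iff_dvd _ 2).mp h7
    have h11 : (∑ β ∈ S, if β zC = c then ((nX β : ℤ) - (nY β : ℤ)) else 0 : ℤ) =
        ((∑ β ∈ S, if β zC = c then nX β else 0 : ℕ) : ℤ) -
          ((∑ β ∈ S, if β zC = c then nY β else 0 : ℕ) : ℤ) := by
      rw [Nat.cast_sum, Nat.cast_sum, ← Finset.sum_sub_distrib]
      refine Finset.sum_congr rfl fun β _ => ?_
      split_ifs <;> simp
    rw [← h11]
    exact_mod_cast h10
  -- the action by conjugation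
  let _act : MulAction G P :=
    { smul := fun g Q => ⟨Q.1.map (MulAut.conj g).toMonoidHom, Q.2.map _⟩
      one_smul := fun Q => by
        apply Subtype.ext
        change Q.1.map (MulAut.conj (1 : G)).toMonoidHom = Q.1
        ext x
        simp [Subgroup.mem_map]
      mul_smul := fun g h Q => by
        apply Subtype.ext
        change Q.1.map (MulAut.conj (g * h)).toMonoidHom =
          (Q.1.map (MulAut.conj h).toMonoidHom).map (MulAut.conj g).toMonoidHom
        rw [Subgroup.map_map]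
        congr 1
        ext x
        simp [mul_assoc] }
  have hsm : ∀ (g : G) (Q : P), (g • Q).1 = Q.1.map (MulAut.conj g).toMonoidHom := fun _ _ => rfl
  have h6 := orbit_sum (G := G) (Ω := P) (pSubgroupSetoid p G) (by
    intro Q R
    change (∃ g : G, R.1 = Q.1.map (MulAut.conj g).toMonoidHom) ↔ _
    constructor
    · rintro ⟨g, hg⟩
      exact ⟨g, Subtype.ext (by rw [hsm, hg])⟩
    · rintro ⟨g, hg⟩
      exact ⟨g, by rw [← hg, hsm]⟩)
    (fun Q => Nw p red (Q.1.subgroupOf (Subgroup.normalizer (Q.1 : Set G))) (fun x => z x) c) (by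
      rintro Q R ⟨g, hg⟩
      change Nw p red (Q.1.subgroupOf (Subgroup.normalizer (Q.1 : Set G))) (fun x => z x) c =
        Nw p red (R.1.subgroupOf (Subgroup.normalizer (R.1 : Set G))) (fun x => z x) c
      rw [hg]
      exact nw_conj p red hz c g Q.1)
  have hstab : ∀ Q : P, Nat.card (MulAction.stabilizer G Q) =
      Nat.card (Subgroup.normalizer (Q.1 : Set G)) := by
    intro Q
    refine Nat.card_congr (Equiv.subtypeEquivRight fun g => ?_)
    rw [MulAction.mem_stabilizer_iff, Subtype.ext_iff, hsm, Subgroup.mem_normalizer_iff]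
    constructor
    · intro h3 x
      constructor
      · intro hx
        have : g * x * g⁻¹ ∈ Q.1.map (MulAut.conj g).toMonoidHom := ⟨x, hx, rfl⟩
        rw [h3] at this
        exact this
      · intro hx
        have hx' : g * x * g⁻¹ ∈ Q.1 := hx
        rw [← h3] at hx'
        obtain ⟨y, hy, hyx⟩ := hx'
        have : g * y * g⁻¹ = g * x * g⁻¹ := hyx
        have : y = x := by simpa using this
        rwa [← this]
    · intro h3
      ext x
      constructor
      · rintro ⟨y, hy, rfl⟩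
        exact (h3 y).mp hy
      · intro hx
        refine ⟨g⁻¹ * x * g, (h3 _).mpr ?_, ?_⟩
        · have : g * (g⁻¹ * x * g) * g⁻¹ = x := by group
          rw [this]
          exact hx
        · change g * (g⁻¹ * x * g) * g⁻¹ = x
          group
  -- conclusion
  have h7 : Nat.card G * ∑ᶠ d : Quotient (pSubgroupSetoid p G), Nw p red
        (d.out.1.subgroupOf (Subgroup.normalizer (d.out.1 : Set G))) (fun x => z x) c = ∑ Q : P,
      Nat.card (Subgroup.normalizer (Q.1 : Set G)) *
        Nw p red (Q.1.subgroupOf (Subgroup.normalizer (Q.1 : Set G))) (fun x => z x) c := by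
    rw [h6]
    exact Finset.sum_congr rfl fun Q _ => by rw [hstab Q]
  have e8 : Lsum (⊤ : Subgroup G) ⊤ z c = ((Nat.card G * Lnum (⊤ : Subgroup G) ⊤ z c : ℕ) : ℤ) := by
    unfold Lsum
    rw [if_pos (sup_idem _), inf_idem, Subgroup.card_top]
    push_cast
    rfl
  have e9 : Wsum p red (⊤ : Subgroup G) ⊤ z c = ((∑ Q : P,
      Nat.card (Subgroup.normalizer (Q.1 : Set G)) *
        Nw p red (Q.1.subgroupOf (Subgroup.normalizer (Q.1 : Set G))) (fun x => z x) c : ℕ) : ℤ) := by
    unfold Wsum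
    have : Fintype (Subgroup G) := Fintype.ofFinite _
    rw [finsum_eq_sum_of_fintype]
    have e10 : ∀ Q : Subgroup G, (if IsPGroup p Q ∧ Q ≤ ⊤ ∧ (⊤ : Subgroup G) ⊔ Q = ⊤ then
        (Nat.card ↥((⊤ : Subgroup G) ⊓ Subgroup.normalizer (Q : Set G)) : ℤ) *
          Nw p red (Q.subgroupOf ((⊤ : Subgroup G) ⊓ Subgroup.normalizer (Q : Set G)))
            (fun x => z x) c else 0) =
        if IsPGroup p Q then (Nat.card ↥(Subgroup.normalizer (Q : Set G)) : ℤ) *
          Nw p red (Q.subgroupOf (Subgroup.normalizer (Q : Set G))) (fun x => z x) c else 0 := by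
      intro Q
      rw [top_inf_eq]
      by_cases h : IsPGroup p Q
      · rw [if_pos h, if_pos ⟨h, le_top, top_sup_eq _⟩]
      · rw [if_neg h, if_neg fun h' => h h'.1]
    rw [Finset.sum_congr rfl fun Q _ => e10 Q, ← Finset.sum_filter]
    push_cast
    exact Finset.sum_subtype (p := fun Q : Subgroup G => IsPGroup p Q)
      (Finset.univ.filter fun Q : Subgroup G => IsPGroup p Q) (by simp)
      (fun Q => (Nat.card ↥(Subgroup.normalizer (Q : Set G)) : ℤ) *
          Nw p red (Q.subgroupOf (Subgroup.normalizer (Q : Set G))) (fun x => z x) c)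
  rw [e8, e9, ← h7]
  push_cast
  rw [← mul_sub, mul_comm (2 : ℤ)]
  refine mul_dvd_mul_left _ ?_
  exact_mod_cast hpar2

end Pool.Agent.E8helper46.AW
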