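import Pool.Agent.E8helper46.AW.Kr2
import Pool.Agent.E8helper46.PD.Real
import Pool.Agent.R674.KB.Kdim

/-!
# Blocks as central characters and blocks as sets of characters
-/

set_option autoImplicit false
set_option linter.unusedSectionVars false

open scoped BigOperators Classical

noncomputable section

namespace Pool.Agent.E8helper46.AW

open Pool.Agent.Y63.NV
open Pool.Agent.Y63.AWC (IsIrreducibleCharacter)
open Pool.Agent.H254R3.IN (IsIrr omega)
open Pool.Agent.Q90.WR (IndS mem_IndS)
open Pool.Agent.Q259.BW (L)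
open Pool.Agent.Y930.NV (R om Cf om_int R_expand redC_of redC_add redC_mul redC_one redC_zero
  redC_intCast)

theorem sum_any {α M : Type} [AddCommMonoid M] (i : Fintype α) (f : α → M) :
    @Finset.sum α M _ (@Finset.univ α i) f = ∑ᶠ a, f a := (finsum_eq_sum_of_fintype f).symm

/-- `O` is a valuation ring above the kernel of the reduction map -/
structure Above {F : Type} [Field F] (red : integralClosure ℤ ℂ →+* F) (O : ValuationSubring ℂ) :
    Prop where
  iff : ∀ a : integralClosure ℤ ℂ, red a = 0 ↔ (a : ℂ) ∈ O.nonunits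

theorem exists_above {p : ℕ} [Fact p.Prime] {F : Type} [Field F] [CharP F p]
    (red : integralClosure ℤ ℂ →+* F) : ∃ O : ValuationSubring ℂ, Above red O := by
  have hpr : (RingHom.ker red).IsPrime := RingHom.ker_isPrime red
  have hmax : (RingHom.ker red).IsMaximal := by
    refine Ideal.isMaximal_of_isIntegral_of_isMaximal_comap (R := ℤ) _ ?_
    have h1 : Ideal.comap (algebraMap ℤ (integralClosure ℤ ℂ)) (RingHom.ker red) =
        Ideal.span {(p : ℤ)} := by
      ext n
      rw [Ideal.mem_comap, RingHom.mem_ker, Ideal.mem_span_singleton]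
      have h2 : red (algebraMap ℤ (integralClosure ℤ ℂ) n) = (n : F) := by
        have : algebraMap ℤ (integralClosure ℤ ℂ) n = (n : integralClosure ℤ ℂ) := by simp
        rw [this, map_intCast]
      rw [h2, CharP.intCast_eq_zero_iff F p]
    rw [h1]
    exact PrincipalIdealRing.isMaximal_of_irreducible
      (Nat.prime_iff_prime_int.mp (Fact.out : p.Prime)).irreducible
  obtain ⟨O, hO1, hO2⟩ := Ideal.image_subset_nonunits_valuationSubring
    (A := (integralClosure ℤ ℂ).toSubring) (RingHom.ker red) hpr.ne_top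
  refine ⟨O, ⟨fun a => ⟨fun h => hO2 ⟨a, h, rfl⟩, fun h => ?_⟩⟩⟩
  by_contra hne
  obtain ⟨y, i, hi, hy⟩ := hmax.exists_inv (x := a) (fun h' => hne h')
  have h1 : (i : ℂ) ∈ O.nonunits := hO2 ⟨i, hi, rfl⟩
  have h2 : (y : ℂ) ∈ O := hO1 y.2
  have h3 : (y : ℂ) * a + i = 1 := congrArg Subtype.val hy
  have h4 : (y : ℂ) * a ∈ O.nonunits := by
    have m1 := H254R3.IN.nonunits_mem h
    rw [← H254R3.IN.red_eq_zero_iff (O.mul_mem _ _ h2 m1), H254R3.IN.red_mul h2 m1,
      H254R3.IN.red_eq_zero h, mul_zero]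
  have h5 : (1 : ℂ) ∈ O.nonunits := by
    rw [← h3]
    have m1 := H254R3.IN.nonunits_mem h4
    have m2 := H254R3.IN.nonunits_mem h1
    rw [← H254R3.IN.red_eq_zero_iff (O.add_mem _ _ m1 m2), H254R3.IN.red_add m1 m2,
      H254R3.IN.red_eq_zero h4, H254R3.IN.red_eq_zero h1, add_zero]
  have h6 := H254R3.IN.red_eq_zero h5
  rw [H254R3.IN.red_one] at h6
  exact one_ne_zero h6

section

variable {F : Type} [Field F] {red : integralClosure ℤ ℂ →+* F} {O : ValuationSubring ℂ}

theorem Above.p_mem {p : ℕ} [CharP F p] (h : Above red O) : (p : ℂ) ∈ O.nonunits := by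
  have h1 := (h.iff (p : integralClosure ℤ ℂ)).mp (by rw [map_natCast]; exact CharP.cast_eq_zero F p)
  exact_mod_cast h1

theorem Above.eq_iff (h : Above red O) {a b : ℂ} (ha : IsIntegral ℤ a) (hb : IsIntegral ℤ b) :
    redC red a = redC red b ↔ a - b ∈ O.nonunits := by
  rw [redC_of red ha, redC_of red hb, ← sub_eq_zero, ← map_sub, h.iff]
  rfl

variable {G : Type} [Group G]

theorem mk_eq_iff' {x y : G} : ConjClasses.mk y = ConjClasses.mk x ↔ IsConj x y := by
  rw [ConjClasses.mk_eq_mk_iff_isConj, isConj_comm]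

/-- the indicator function of a class on a subgroup -/
def nD (H : Subgroup G) (D : ConjClasses G) : H → ℤ := fun y => if ConjClasses.mk (y : G) = D then 1 else 0

theorem nD_cf (H : Subgroup G) (D : ConjClasses G) : Cf (nD H D) := by
  intro g x
  unfold nD
  have e : ConjClasses.mk ((g * x * g⁻¹ : H) : G) = ConjClasses.mk (x : G) := by
    rw [ConjClasses.mk_eq_mk_iff_isConj, isConj_comm, isConj_iff]
    exact ⟨g, rfl⟩
  rw [e]

variable [Finite G]

theorem om_nD (H : Subgroup G) [Fintype H] (θ : H → ℂ) (x : G) :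
    om θ (fun y => ((nD H (ConjClasses.mk x) y : ℤ) : ℂ)) = L (Subtype.val : H → G) θ x := by
  unfold om L
  congr 1
  refine Finset.sum_congr rfl fun y _ => ?_
  unfold nD
  change ((if ConjClasses.mk (y : G) = ConjClasses.mk x then (1 : ℤ) else 0 : ℤ) : ℂ) * θ y = _
  by_cases h : IsConj x (y : G)
  · rw [if_pos (mk_eq_iff'.mpr h), if_pos h, Int.cast_one, one_mul]
  · rw [if_neg (fun h' => h (mk_eq_iff'.mp h')), if_neg h, Int.cast_zero, zero_mul]

theorem L_int {H : Subgroup G} [Fintype H] {θ : H → ℂ} (hθ : IsIrreducibleCharacter θ) (x : G) :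
    IsIntegral ℤ (L (Subtype.val : H → G) θ x) := by
  rw [← om_nD]
  exact om_int hθ (nD_cf H _)

/-- the value of the central character of `θ` at the restriction of a class function -/
theorem cv_res (H : Subgroup G) [Fintype H] [Fintype G] {θ : H → ℂ} (hθ : IsIrreducibleCharacter θ)
    {f : G → F} (hf : IsClassFun f) :
    centralValue red θ (fun y => f y) =
      ∑ D : ConjClasses G, f D.out * redC red (L (Subtype.val : H → G) θ D.out) := by
  rw [Pool.Agent.Y930.NV.centralValue_eq red hθ, sum_any, finsum_eq_sum_of_fintype]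
  have h1 : ∀ C : ConjClasses H, f (C.out : H) = ∑ D : ConjClasses G, f D.out * (nD H D C.out : F) := by
    intro C
    have h2 := Pool.Agent.Y930.NV.Cf_expand (A := F) (f := f) hf ((C.out : H) : G)
    rw [sum_any, finsum_eq_sum_of_fintype] at h2
    rw [h2]
    refine Finset.sum_congr rfl fun D _ => ?_
    unfold nD Pool.Agent.Y930.NV.ind
    split_ifs <;> simp
  rw [Finset.sum_congr rfl fun C _ => by rw [h1 C, Finset.sum_mul], Finset.sum_comm]
  refine Finset.sum_congr rfl fun D _ => ?_
  have h3 := R_expand red hθ (nD_cf H D)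
  rw [sum_any, finsum_eq_sum_of_fintype] at h3
  have h4 : R red θ (nD H D) = redC red (L (Subtype.val : H → G) θ D.out) := by
    unfold R
    rw [← om_nD, Pool.Agent.Y930.NV.mk_out]
  rw [← h4, h3, Finset.mul_sum]
  exact Finset.sum_congr rfl fun C _ => mul_assoc _ _ _

theorem omega_int {χ : G → ℂ} (hχ : IsIrreducibleCharacter χ) (x : G) : IsIntegral ℤ (omega χ x) := by
  have := Fintype.ofFinite G
  have h1 := om_int hχ (Pool.Agent.Y930.NV.Cf_ind ℤ (ConjClasses.mk x))
  have h2 : (fun g => ((Pool.Agent.Y930.NV.ind ℤ (ConjClasses.mk x) g : ℤ) : ℂ)) =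
      fun y => if IsConj x y then (1 : ℂ) else 0 := by
    funext y
    unfold Pool.Agent.Y930.NV.ind
    by_cases h : IsConj x y
    · rw [if_pos (mk_eq_iff'.mpr h), if_pos h, Int.cast_one]
    · rw [if_neg (fun h' => h (mk_eq_iff'.mp h')), if_neg h, Int.cast_zero]
  rw [h2] at h1
  have h3 : om χ (fun y => if IsConj x y then (1 : ℂ) else 0) = omega χ x := by
    rw [Pool.Agent.Q259.BW.omega_eq_L hχ x]
    unfold om L
    congr 1
    refine Finset.sum_congr rfl fun y _ => ?_
    rw [MonoidHom.id_apply]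
    change (if IsConj x y then (1 : ℂ) else 0) * χ y = _
    by_cases h : IsConj x y
    · rw [if_pos h, if_pos h, one_mul]
    · rw [if_neg h, if_neg h, zero_mul]
  rwa [h3] at h1

theorem cv_self [Fintype G] (χ : G → ℂ) (f : G → F) :
    centralValue red χ f = ∑ D : ConjClasses G, f D.out * redC red (omega χ D.out) := by
  unfold centralValue
  rw [finsum_eq_sum_of_fintype]
  refine Finset.sum_congr rfl fun D _ => ?_
  congr 2
  unfold omega
  congr 3
  refine Nat.card_congr (Equiv.subtypeEquivRight fun y => ?_)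
  rw [ConjClasses.mem_carrier_iff_mk_eq, ← mk_eq_iff', Pool.Agent.Y930.NV.mk_out]

/-- **equality of central characters** -/
theorem cv_eq_iff (hO : Above red O) {χ : G → ℂ} (hχ : IsIrreducibleCharacter χ) (H : Subgroup G)
    [Fintype H] {θ : H → ℂ} (hθ : IsIrreducibleCharacter θ) :
    (∀ f : G → F, IsClassFun f → centralValue red θ (fun y => f y) = centralValue red χ f) ↔
      ∀ x : G, omega χ x - L (Subtype.val : H → G) θ x ∈ O.nonunits := by
  have := Fintype.ofFinite G
  constructor
  · intro h x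
    rw [← hO.eq_iff (omega_int hχ x) (L_int hθ x)]
    have h1 := h (Pool.Agent.Y930.NV.ind F (ConjClasses.mk x)) (Pool.Agent.Y930.NV.Cf_ind F _)
    rw [cv_res H hθ (Pool.Agent.Y930.NV.Cf_ind F _), cv_self χ] at h1
    have h2 : ∀ g : G → F, ∑ D : ConjClasses G,
        Pool.Agent.Y930.NV.ind F (ConjClasses.mk x) D.out * g D.out =
        g (ConjClasses.mk x).out := by
      intro g
      rw [Finset.sum_eq_single (ConjClasses.mk x)]
      · rw [Pool.Agent.Y930.NV.ind_out, if_pos rfl, one_mul]
      · intro D _ hD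
        rw [Pool.Agent.Y930.NV.ind_out, if_neg hD, zero_mul]
      · intro h
        exact absurd (Finset.mem_univ _) h
    rw [h2 (fun y => redC red (L (Subtype.val : H → G) θ y)), h2 (fun y => redC red (omega χ y))]
      at h1
    have h3 : IsConj x (ConjClasses.mk x).out := by
      rw [← mk_eq_iff', Pool.Agent.Y930.NV.mk_out]
    have h4 : omega χ x = omega χ (ConjClasses.mk x).out :=
      H254R3.IN.IsIrr.omega_congr hχ h3
    have h5 : L (Subtype.val : H → G) θ x = L (Subtype.val : H → G) θ (ConjClasses.mk x).out := by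
      rw [← om_nD, ← om_nD, Pool.Agent.Y930.NV.mk_out]
    rw [h4, h5, h1]
  · intro h f hf
    rw [cv_res H hθ hf, cv_self χ]
    refine Finset.sum_congr rfl fun D _ => ?_
    rw [(hO.eq_iff (omega_int hχ D.out) (L_int hθ D.out)).mpr (h D.out)]

end

end Pool.Agent.E8helper46.AW
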