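import Pool.Agent.E8helper46.AW.Zero

/-!
# Blocks of defect zero
-/

set_option autoImplicit false
set_option linter.unusedSectionVars false

open scoped BigOperators Classical

noncomputable section

namespace Pool.Agent.E8helper46.AW

open Pool.Agent.Y63.NV
open Pool.Agent.Y63.KR (IsPChain chainStabilizer alternatingSum conjSub)
open Pool.Agent.Y63.AWC (IsIrreducibleCharacter)
open Pool.Agent.Y930.NV (R om Cf om_int om_sum redC_of redC_add redC_mul redC_one redC_zero
  redC_intCast redC_sum Cf_expand Cf_ind ind ind_cast irr_one_ne)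
open Pool.Agent.H254R3.IN (IsIrr omega)

section

variable {F : Type} [Field F] (red : integralClosure ℤ ℂ →+* F) {G : Type} [Group G]

/-- the reduction of the dual of a character -/
def zd (ψ : G → ℂ) : G → F := fun x => redC red (ψ x⁻¹)

theorem zd_class {ψ : G → ℂ} (hψ : IsIrreducibleCharacter ψ) : IsClassFun (zd red ψ) := by
  intro g x
  unfold zd
  have h := vee_class (irr_cl hψ) g x
  unfold vee at h
  rw [h]

variable [Finite G]

theorem char_int {ψ : G → ℂ} (hψ : IsIrreducibleCharacter ψ) (x : G) : IsIntegral ℤ (ψ x) :=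
  H254R3.IN.IsIrr.isIntegral hψ x

theorem cv_zd {χ ψ : G → ℂ} (hχ : IsIrreducibleCharacter χ) (hψ : IsIrreducibleCharacter ψ) :
    centralValue red χ (zd red ψ) =
      redC red (if χ = ψ then (Nat.card G : ℂ) / ψ 1 else 0) := by
  have := Fintype.ofFinite G
  have h1 : om χ (vee ψ) = if χ = ψ then (Nat.card G : ℂ) / ψ 1 else 0 := by
    have h2 := Pool.Agent.Helper884.IC.B_irr hχ hψ
    unfold Pool.Agent.Helper884.IC.B at h2
    have hc : (Nat.card G : ℂ) ≠ 0 := by exact_mod_cast Nat.card_pos.ne'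
    have h3 : ∑ g : G, χ g * ψ g⁻¹ = if χ = ψ then (Nat.card G : ℂ) else 0 := by
      have h4 := congrArg (fun t => (Nat.card G : ℂ) * t) h2
      change (Nat.card G : ℂ) * ((Nat.card G : ℂ)⁻¹ * ∑ g : G, χ g * ψ g⁻¹) = _ at h4
      rw [← mul_assoc, mul_inv_cancel₀ hc, one_mul] at h4
      rw [h4]
      split_ifs <;> simp
    have h5 : ∑ g : G, vee ψ g * χ g = ∑ g : G, χ g * ψ g⁻¹ :=
      Finset.sum_congr rfl fun g _ => mul_comm _ _
    unfold om
    rw [h5, h3]
    by_cases h : χ = ψ
    · rw [if_pos h, if_pos h, h]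
    · rw [if_neg h, if_neg h, zero_div]
  refine Eq.trans ?_ (congrArg (redC red) (h1.trans (by split_ifs <;> rfl)))
  have h6 : (vee ψ : G → ℂ) = fun g => ∑ C : ConjClasses G, vee ψ C.out * ind ℂ C g := by
    funext g
    have := Cf_expand (vee_class (irr_cl hψ)) g
    rw [sum_any, finsum_eq_sum_of_fintype] at this
    exact this
  rw [h6, om_sum, Pool.Agent.Y930.NV.centralValue_eq red hχ, sum_any, finsum_eq_sum_of_fintype,
    redC_sum]
  · refine Finset.sum_congr rfl fun C _ => ?_
    have h7 : IsIntegral ℤ (vee ψ C.out) := char_int hψ _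
    have h8 : IsIntegral ℤ (om χ (ind ℂ C)) := by
      rw [← ind_cast]
      exact om_int hχ (Cf_ind ℤ C)
    rw [redC_mul red h7 h8]
    unfold R
    rw [ind_cast]
    rfl
  · intro C _
    have h7 : IsIntegral ℤ (vee ψ C.out) := char_int hψ _
    have h8 : IsIntegral ℤ (om χ (ind ℂ C)) := by
      rw [← ind_cast]
      exact om_int hχ (Cf_ind ℤ C)
    exact h7.mul h8

variable {p : ℕ} [Fact p.Prime]

theorem dz_quot {ψ : G → ℂ} (h : IsWt p (⊥ : Subgroup G) ψ) :
    ∃ m : ℕ, ¬ p ∣ m ∧ (Nat.card G : ℂ) = m * ψ 1 := by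
  obtain ⟨n, hn0, hn, k, hk⟩ := deg_nat h.irr
  have hG : Nat.card G ≠ 0 := Nat.card_pos.ne'
  have hk0 : k ≠ 0 := by
    rintro rfl
    exact hG (by rw [hk, mul_zero])
  refine ⟨k, ?_, by rw [hn, hk, Nat.cast_mul, mul_comm]⟩
  intro hd
  obtain ⟨m, hm, hm2⟩ := h.defectZero
  have e : m = n := by
    have : (m : ℂ) = n := hm.symm.trans hn
    exact_mod_cast this
  have h3 : (Nat.card G).factorization p = n.factorization p + k.factorization p := by
    rw [hk, Nat.factorization_mul hn0 hk0]
    rfl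
  rw [e, Subgroup.card_bot, Nat.factorization_one, h3] at hm2
  have h5 : k.factorization p = 0 := by
    simp only [Finsupp.coe_zero, Pi.zero_apply] at hm2
    omega
  have h6 : 0 < k.factorization p := (Fact.out : p.Prime).factorization_pos_of_dvd hk0 hd
  omega

variable [CharP F p]

theorem redC_nat (n : ℕ) : redC red (n : ℂ) = (n : F) := by
  have := redC_intCast red (n : ℤ)
  simpa using this

theorem cv_zd_self {ψ : G → ℂ} (h : IsWt p (⊥ : Subgroup G) ψ) :
    centralValue red ψ (zd red ψ) ≠ 0 := by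
  have := Fintype.ofFinite G
  obtain ⟨m, hm, he⟩ := dz_quot h
  rw [cv_zd red h.irr h.irr, if_pos rfl, he, mul_div_cancel_right₀ _ (irr_one_ne h.irr),
    redC_nat]
  intro h0
  exact hm ((CharP.cast_eq_zero_iff F p m).mp h0)

/-- defect zero characters vanish modulo `p` outside the classes of defect zero -/
theorem zd_zero {ψ : G → ℂ} (h : IsWt p (⊥ : Subgroup G) ψ) {y : G}
    (hy : p ∣ Nat.card (Subgroup.centralizer ({y} : Set G))) : redC red (ψ y) = 0 := by
  have := Fintype.ofFinite G
  obtain ⟨m, hm, he⟩ := dz_quot h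
  have h1 := H254R3.IN.card_class_mul y
  have hne : ψ 1 ≠ 0 := irr_one_ne h.irr
  have h2 : (m : ℂ) * ψ y =
      (Nat.card (Subgroup.centralizer ({y} : Set G)) : ℂ) * omega ψ y := by
    have h3 : ((Nat.card {z : G // IsConj y z} : ℂ) *
        Nat.card (Subgroup.centralizer ({y} : Set G))) = m * ψ 1 := by
      rw [← he]
      exact_mod_cast h1
    unfold omega
    have h4 : (Nat.card (Subgroup.centralizer ({y} : Set G)) : ℂ) *
        ((Nat.card {z : G // IsConj y z} : ℂ) * ψ y / ψ 1) =
        ((Nat.card {z : G // IsConj y z} : ℂ) *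
        Nat.card (Subgroup.centralizer ({y} : Set G))) * ψ y / ψ 1 := by ring
    rw [h4, h3]
    field_simp
  have h5 := congrArg (redC red) h2
  have hi : ∀ n : ℕ, IsIntegral ℤ (n : ℂ) := fun n => by
    have := Pool.Agent.Y930.NV.int_intCast (n : ℤ)
    simpa using this
  rw [redC_mul red (hi m) (char_int h.irr y),
    redC_mul red (hi _) (omega_int h.irr y), redC_nat, redC_nat,
    (CharP.cast_eq_zero_iff F p _).mpr hy, zero_mul] at h5
  rcases mul_eq_zero.mp h5 with h6 | h6
  · exact absurd ((CharP.cast_eq_zero_iff F p m).mp h6) hm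
  · exact h6

/-- the block induced by a character of the stabiliser of a chain to the normaliser of the largest
member -/
theorem up_norm [IsAlgClosed F] {σ : Set (Subgroup G)} (hσ : IsPChain p σ) {Q : Subgroup G}
    (hQ : Q ∈ σ) (hmax : ∀ P ∈ σ, P ≤ Q) {N : Subgroup G}
    (hN : N = Subgroup.normalizer (Q : Set G)) {θ : chainStabilizer σ → ℂ}
    (hθ : IsIrreducibleCharacter θ) :
    ∃ i : chainStabilizer σ →* N, (∀ x, ((i x : N) : G) = x) ∧
      IsBlock (fun f : N → F => centralValue red θ (fun x => f (i x))) := by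
  have hQN : Q ≤ N := hN ▸ Subgroup.le_normalizer
  have hiN : ∀ x : chainStabilizer σ, (x : G) ∈ N := by
    intro x
    rw [hN]
    exact Pool.Agent.R674.KB.mem_stab.1 x.2 Q hQ
  let i' : chainStabilizer σ →* N := (chainStabilizer σ).subtype.codRestrict N hiN
  have hi' : Function.Injective i' := by
    intro a b hab
    exact Subtype.ext (congrArg (fun y : N => (y : G)) hab)
  refine ⟨i', fun x => rfl, ?_⟩
  let τ : Set (Subgroup N) := (fun P : Subgroup G => P.subgroupOf N) '' (σ \ {Q})
  have hle : ∀ P ∈ σ, P ≤ N := fun P hP => (hmax P hP).trans hQN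
  have hτ : IsPChain p τ := by
    refine ⟨?_, ?_, ?_⟩
    · rintro _ ⟨P, hP, rfl⟩ _ ⟨P', hP', rfl⟩ hne'
      have h1 : P ≠ P' := by
        rintro rfl
        exact hne' rfl
      rcases hσ.chain hP.1 hP'.1 h1 with h | h
      · exact Or.inl (Subgroup.comap_mono h)
      · exact Or.inr (Subgroup.comap_mono h)
    · rintro _ ⟨P, hP, rfl⟩
      exact (hσ.isPGroup P hP.1).comap_subtype
    · rintro _ ⟨P, hP, rfl⟩ h0
      apply hσ.ne_bot P hP.1
      rw [eq_bot_iff]
      intro x hx
      have h1 : (⟨x, hle P hP.1 hx⟩ : N) ∈ P.subgroupOf N := hx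
      change P.subgroupOf N = ⊥ at h0
      rw [h0, Subgroup.mem_bot] at h1
      rw [Subgroup.mem_bot]
      exact congrArg Subtype.val h1
  have hr' : i'.range = chainStabilizer τ := by
    ext x
    rw [Pool.Agent.R674.KB.mem_stab]
    constructor
    · rintro ⟨y, rfl⟩
      rintro _ ⟨P, hP, rfl⟩
      exact (Pool.Agent.R674.KB.norm_sub (hle P hP.1) (i' y)).2
        (Pool.Agent.R674.KB.mem_stab.1 y.2 P hP.1)
    · intro h
      have h1 : (x : G) ∈ chainStabilizer σ := by
        rw [Pool.Agent.R674.KB.mem_stab]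
        intro P hP
        by_cases hPQ : P = Q
        · have h2 := x.2
          rw [hPQ, ← hN]
          exact h2
        · exact (Pool.Agent.R674.KB.norm_sub (hle P hP) x).1 (h _ ⟨P, ⟨hP, hPQ⟩, rfl⟩)
      exact ⟨⟨x, h1⟩, Subtype.ext rfl⟩
  exact Pool.Agent.R674.KB.kblk_aux red τ.ncard N τ hτ rfl (chainStabilizer σ) i' hi' hr' θ hθ

/-- no character of the stabiliser of a nonempty chain induces a block of defect zero -/
theorem ind_zero [IsAlgClosed F] {ψ : G → ℂ} (h : IsWt p (⊥ : Subgroup G) ψ) {B : (G → F) → F}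
    (hB : ∀ f : G → F, IsClassFun f → centralValue red ψ f = B f) {σ : Set (Subgroup G)}
    (hσ : IsPChain p σ) (hne : σ.Nonempty) : numIrrInd red (chainStabilizer σ) B = 0 := by
  unfold numIrrInd
  rw [Nat.card_eq_zero]
  left
  refine ⟨fun θ => ?_⟩
  obtain ⟨Q, hQ, hmax⟩ := Pool.Agent.R674.KB.exists_greatest hσ.chain hne
  obtain ⟨N, hN⟩ : ∃ N : Subgroup G, N = Subgroup.normalizer (Q : Set G) := ⟨_, rfl⟩
  have hQN : Q ≤ N := hN ▸ Subgroup.le_normalizer
  obtain ⟨i, hi, hblk⟩ := up_norm red hσ hQ hmax hN θ.2.1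
  have hnorm : (Q.subgroupOf N).Normal := by
    subst hN
    exact Subgroup.normal_in_normalizer
  have hpg : IsPGroup p (Q.subgroupOf N) := (hσ.isPGroup Q hQ).comap_subtype
  have hz := zd_class red h.irr
  have h1 := Pool.Agent.R674.KB.blk_zero hpg hblk (h := fun x : N => zd red ψ x)
    (fun g x => hz g x) (by
      intro x hx
      change redC red (ψ (x : G)⁻¹) = 0
      refine zd_zero red h ?_
      have h2 : Q ≤ Subgroup.centralizer ({(x : G)⁻¹} : Set G) := by
        intro q hq
        rw [Subgroup.mem_centralizer_iff]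
        intro y hy
        rw [Set.mem_singleton_iff.mp hy]
        rw [Subgroup.mem_centralizer_iff] at hx
        have h3 : q * (x : G) = x * q :=
          congrArg Subtype.val (hx ⟨q, hQN hq⟩ (Subgroup.mem_subgroupOf.mpr hq))
        rw [inv_mul_eq_iff_eq_mul, ← mul_assoc, ← h3, mul_assoc, mul_inv_cancel, mul_one]
      refine dvd_trans ?_ (Subgroup.card_dvd_of_le h2)
      obtain ⟨k, hk⟩ := (IsPGroup.iff_card).mp (hσ.isPGroup Q hQ)
      rw [hk]
      refine dvd_pow_self p ?_
      rintro rfl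
      rw [pow_zero] at hk
      exact hσ.ne_bot Q hQ (Subgroup.eq_bot_of_card_eq Q hk))
  have h4 := θ.2.2 (zd red ψ) hz
  rw [← hB _ hz] at h4
  apply cv_zd_self (p := p) red h
  rw [← h4]
  have h5 : (fun x : chainStabilizer σ => zd red ψ x) =
      fun x : chainStabilizer σ => (fun y : N => zd red ψ y) (i x) := by
    funext x
    change _ = zd red ψ ((i x : N) : G)
    rw [hi]
  rw [h5]
  exact h1

/-- **blocks of defect zero** -/
theorem kr_dz [IsAlgClosed F] {ψ : G → ℂ} (h : IsWt p (⊥ : Subgroup G) ψ) {B : (G → F) → F}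
    (hB : ∀ f : G → F, IsClassFun f → centralValue red ψ f = B f) :
    alternatingSum p G (fun H => (numIrrInd red H B : ℤ)) = numDzBlock p red B := by
  have hpos : (Nat.card G : ℤ) ≠ 0 := by exact_mod_cast Nat.card_pos.ne'
  have h1 := Pool.Agent.Y171.NV.card_mul_alt (p := p) (fun H => (numIrrInd red H B : ℤ))
    (fun g H => by rw [Pool.Agent.Y171.NV.numIrrInd_conj])
  rw [finsum_eq_single _ (⟨∅, empty_chain⟩ : {σ : Set (Subgroup G) // IsPChain p σ})] at h1
  · simp only [Set.ncard_empty, pow_zero, one_mul] at h1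
    rw [chainStabilizer_empty, Subgroup.card_top] at h1
    rw [mul_left_cancel₀ hpos h1]
    congr 1
    have hcl : ∀ χ : G → ℂ, IsIrreducibleCharacter χ → ∀ a b : G, IsConj a b → χ a = χ b :=
      fun χ hχ a b hab => H254R3.IN.IsIrr.isConj hχ hab
    have hd : ∀ χ : G → ℂ, IsIrreducibleCharacter χ →
        (∀ f : G → F, IsClassFun f → centralValue red χ f = B f) → χ = ψ := by
      intro χ hχ h2
      by_contra hne
      have h3 := h2 _ (zd_class red h.irr)
      rw [← hB _ (zd_class red h.irr), cv_zd red hχ h.irr, if_neg hne, redC_zero] at h3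
      exact cv_zd_self (p := p) red h h3.symm
    unfold numIrrInd numDzBlock
    have e1 : ∀ χ : G → ℂ, IsIrreducibleCharacter χ → ∀ f : G → F, IsClassFun f →
        centralValue red (fun x : (⊤ : Subgroup G) => χ x) (fun x => f x) =
          centralValue red χ f := fun χ hχ f hf =>
      Pool.Agent.Y286.NV.centralValue_comp red (Subgroup.topEquiv (G := G)) χ (hcl χ hχ) f hf
    refine Nat.card_congr
      { toFun := fun θ => ⟨fun x => θ.1 ⟨x, trivial⟩, ?_⟩
        invFun := fun χ => ⟨fun x => χ.1 x,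
          Pool.Agent.Y210.NV2.irrTrace_comp (Subgroup.topEquiv (G := G)) χ.2.1.irr, fun f hf => by
            rw [e1 χ.1 χ.2.1.irr f hf]
            exact χ.2.2 f hf⟩
        left_inv := fun θ => rfl
        right_inv := fun χ => rfl }
    have i1 : IsIrreducibleCharacter (fun x : G => θ.1 ⟨x, trivial⟩) :=
      Pool.Agent.Y210.NV2.irrTrace_comp (Subgroup.topEquiv (G := G)).symm θ.2.1
    have i2 : ∀ f : G → F, IsClassFun f →
        centralValue red (fun x : G => θ.1 ⟨x, trivial⟩) f = B f := by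
      intro f hf
      rw [← e1 _ i1 f hf]
      exact θ.2.2 f hf
    refine ⟨?_, i2⟩
    rw [hd _ i1 i2]
    exact h
  · intro σ hσ
    have hne : σ.1.Nonempty := by
      rw [Set.nonempty_iff_ne_empty]
      intro h
      exact hσ (Subtype.ext h)
    rw [ind_zero red h hB σ.2 hne]
    simp

end

end Pool.Agent.E8helper46.AW
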