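import Pool.Agent.E8helper46.AW.Bridge
import Pool.Agent.Y63.AWC.Deg

/-!
# Every block contains an ordinary character; the set of the ordinary characters of a block
-/

set_option autoImplicit false
set_option linter.unusedSectionVars false

open scoped BigOperators Classical

noncomputable section

namespace Pool.Agent.E8helper46.AW

open Pool.Agent.Y63.NV
open Pool.Agent.Y63.AWC (IsIrreducibleCharacter)
open Pool.Agent.Y171.NV (CFm mu mud blk irr_fin)
open Pool.Agent.R674.KB (CFs isClassFun_one kop_app)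
open Pool.Agent.H254R3.IN (IsIrr omega)
open Pool.Agent.Q90.WR (IndS mem_IndS GoodB)
open Pool.Agent.Q259.BW (L)

section eig

variable {F : Type} [Field F] {J : Type} [Group J] [Finite J]

/-- the value of a block at a class function is an eigenvalue on the class functions -/
theorem eig {B : (J → F) → F} (hB : IsBlock B) {h : J → F} (hh : IsClassFun h) :
    ∃ w : J → F, w ≠ 0 ∧ IsClassFun w ∧ conv h w = B h • w := by
  have : Fintype J := Fintype.ofFinite J
  set c := B h with hc
  by_contra hcon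
  push Not at hcon
  let S : CFs J F →ₗ[F] CFs J F :=
    { toFun := fun w => ⟨conv h w.1 - c • w.1, by
        exact (CFs J F).sub_mem (Pool.Agent.Y705.NV.conv_classFun hh w.2)
          ((CFs J F).smul_mem c w.2)⟩
      map_add' := fun a b => by
        apply Subtype.ext
        change Pool.Agent.R674.KB.cL h (a.1 + b.1) - c • (a.1 + b.1) =
          (Pool.Agent.R674.KB.cL h a.1 - c • a.1) + (Pool.Agent.R674.KB.cL h b.1 - c • b.1)
        rw [map_add, smul_add]
        abel
      map_smul' := fun r a => by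
        apply Subtype.ext
        change Pool.Agent.R674.KB.cL h (r • a.1) - c • (r • a.1) =
          r • (Pool.Agent.R674.KB.cL h a.1 - c • a.1)
        rw [map_smul, smul_sub, smul_comm r c] }
  have hinj : Function.Injective S := by
    rw [injective_iff_map_eq_zero]
    intro w hw
    have h1 : conv h w.1 - c • w.1 = 0 := congrArg Subtype.val hw
    by_contra hne
    exact hcon w.1 (fun h0 => hne (Subtype.ext h0)) w.2 (sub_eq_zero.1 h1)
  have hsurj : Function.Surjective S := (LinearMap.injective_iff_surjective).1 hinj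
  obtain ⟨g, hg⟩ := hsurj ⟨Pi.single (1 : J) (1 : F), isClassFun_one⟩
  have h1 : conv h g.1 + (-c) • g.1 = Pi.single (1 : J) (1 : F) := by
    have h2 : conv h g.1 - c • g.1 = Pi.single (1 : J) (1 : F) := congrArg Subtype.val hg
    rw [← h2, neg_smul, sub_eq_add_neg]
  have h2 : B (conv h g.1 + (-c) • g.1) = 0 := by
    rw [hB.add _ _ (Pool.Agent.Y705.NV.conv_classFun hh g.2) ((CFs J F).smul_mem (-c) g.2),
      hB.mul _ _ hh g.2, hB.smul _ _ g.2, ← hc]
    ring
  rw [h1, hB.one] at h2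
  exact one_ne_zero h2

theorem kop_vee {h w : J → F} (hw : IsClassFun w) :
    Kop h Set.univ (vee w) = vee (conv h w) := by
  funext x
  rw [kop_app, if_pos (Set.mem_univ _)]
  unfold vee conv
  refine finsum_congr fun y => ?_
  rw [mul_inv_rev, class_comm hw]

theorem knum_ne {p : ℕ} [Fact p.Prime] [IsAlgClosed F] [CharP F p]
    (red : integralClosure ℤ ℂ →+* F) {B : (J → F) → F} (hB : IsBlock B) {h : J → F}
    (hh : IsClassFun h) : ∃ χ : J → ℂ, IsIrreducibleCharacter χ ∧ centralValue red χ h = B h := by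
  by_contra hcon
  push Not at hcon
  have h1 : Knum red h (B h) = 0 := by
    unfold Knum
    have : IsEmpty {χ : J → ℂ // IsIrreducibleCharacter χ ∧ centralValue red χ h = B h} :=
      ⟨fun χ => hcon χ.1 χ.2.1 χ.2.2⟩
    exact Nat.card_of_isEmpty
  rw [Pool.Agent.R674.KB.kdim p F red J h (B h) hh] at h1
  obtain ⟨w, hw0, hw, he⟩ := eig hB hh
  unfold gk at h1
  rw [Submodule.finrank_eq_zero, Submodule.eq_bot_iff] at h1
  have h2 := h1 (vee w) ⟨⟨fun x hx => absurd (Set.mem_univ x) hx, fun j _ x => vee_class hw j x⟩, by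
    have h3 : vee w ∈ Module.End.eigenspace (Kop h Set.univ) (B h) := by
      rw [Module.End.mem_eigenspace_iff, kop_vee hw, he]
      rfl
    exact Module.End.genEigenspace_le_maximal _ _ 1 h3⟩
  apply hw0
  rw [← vee_vee w, h2]
  rfl

/-- **every block contains an ordinary character** -/
theorem exists_char {p : ℕ} [Fact p.Prime] [IsAlgClosed F] [CharP F p]
    (red : integralClosure ℤ ℂ →+* F) {B : (J → F) → F} (hB : IsBlock B) :
    ∃ χ : J → ℂ, IsIrreducibleCharacter χ ∧
      ∀ f : J → F, IsClassFun f → centralValue red χ f = B f := by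
  have hInf : Infinite F := inferInstance
  have hfin := irr_fin J
  obtain ⟨z, hz⟩ := Pool.Agent.Y286.NV.exists_sep
    (fun χ : {χ : J → ℂ // IsIrreducibleCharacter χ} => mud red χ.1) (blk hB)
  obtain ⟨χ, hχ, h1⟩ := knum_ne red hB z.2
  have h2 := hz ⟨χ, hχ⟩ h1
  exact ⟨χ, hχ, fun f hf => LinearMap.congr_fun h2 (⟨f, hf⟩ : CFm J F)⟩

end eig

section ord

variable {F : Type} [Field F] {red : integralClosure ℤ ℂ →+* F} {O : ValuationSubring ℂ}
  {G : Type} [Group G]

/-- the set of the ordinary characters of a block -/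
def ordB (red : integralClosure ℤ ℂ →+* F) (B : (G → F) → F) : Set (G → ℂ) :=
  {χ | IsIrreducibleCharacter χ ∧ ∀ f : G → F, IsClassFun f → centralValue red χ f = B f}

variable [Finite G]

theorem cv_eq_iff' (hO : Above red O) {χ ψ : G → ℂ} (hχ : IsIrreducibleCharacter χ)
    (hψ : IsIrreducibleCharacter ψ) :
    (∀ f : G → F, IsClassFun f → centralValue red ψ f = centralValue red χ f) ↔
      ∀ x : G, omega ψ x - omega χ x ∈ O.nonunits := by
  have := Fintype.ofFinite G
  constructor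
  · intro h x
    rw [← hO.eq_iff (omega_int hψ x) (omega_int hχ x)]
    have h1 := h (Pool.Agent.Y930.NV.ind F (ConjClasses.mk x)) (Pool.Agent.Y930.NV.Cf_ind F _)
    rw [cv_self χ, cv_self ψ] at h1
    have h2 : ∀ g : G → F, ∑ D : ConjClasses G,
        Pool.Agent.Y930.NV.ind F (ConjClasses.mk x) D.out * g D.out =
        g (ConjClasses.mk x).out := by
      intro g
      rw [Finset.sum_eq_single (ConjClasses.mk x)]
      · rw [Pool.Agent.Y930.NV.ind_out, if_pos rfl, one_mul]
      · intro D _ hD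
        rw [Pool.Agent.Y930.NV.ind_out, if_neg hD, zero_mul]
      · intro h
        exact absurd (Finset.mem_univ _) h
    rw [h2 (fun y => redC red (omega ψ y)), h2 (fun y => redC red (omega χ y))] at h1
    have h3 : IsConj x (ConjClasses.mk x).out := by
      rw [← mk_eq_iff', Pool.Agent.Y930.NV.mk_out]
    rw [H254R3.IN.IsIrr.omega_congr hχ h3, H254R3.IN.IsIrr.omega_congr hψ h3, h1]
  · intro h f _
    rw [cv_self ψ, cv_self χ]
    refine Finset.sum_congr rfl fun D _ => ?_
    rw [(hO.eq_iff (omega_int hψ D.out) (omega_int hχ D.out)).mpr (h D.out)]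

theorem ordB_eq (hO : Above red O) {B : (G → F) → F} {χ₀ : G → ℂ} (h0 : χ₀ ∈ ordB red B) :
    ordB red B = {χ | IsIrr χ ∧ ∀ x : G, omega χ x - omega χ₀ x ∈ O.nonunits} := by
  ext χ
  constructor
  · rintro ⟨h1, h2⟩
    exact ⟨h1, (cv_eq_iff' hO h0.1 h1).mp fun f hf => (h2 f hf).trans (h0.2 f hf).symm⟩
  · rintro ⟨h1, h2⟩
    exact ⟨h1, fun f hf => ((cv_eq_iff' hO h0.1 h1).mpr h2 f hf).trans (h0.2 f hf)⟩

theorem ordB_block (hO : Above red O) {B : (G → F) → F} {χ₀ : G → ℂ} (h0 : χ₀ ∈ ordB red B) :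
    H254R3.IN.IsBlock O (ordB red B) := ⟨χ₀, h0.1, ordB_eq hO h0⟩

theorem ordB_cv (hO : Above red O) {𝔹 : Set (G → ℂ)} (h : H254R3.IN.IsBlock O 𝔹) :
    ∃ χ₀ : G → ℂ, χ₀ ∈ 𝔹 ∧ IsIrreducibleCharacter χ₀ ∧ ordB red (centralValue red χ₀) = 𝔹 := by
  obtain ⟨χ₀, h0, rfl⟩ := h
  have h1 : χ₀ ∈ ordB red (centralValue red χ₀) := ⟨h0, fun _ _ => rfl⟩
  have h2 := ordB_eq hO h1
  refine ⟨χ₀, ?_, h0, h2⟩
  rw [← h2]
  exact h1

/-- **characters of subgroups** -/
theorem numIrrInd_eq (hO : Above red O) {B : (G → F) → F} {χ₀ : G → ℂ} (h0 : χ₀ ∈ ordB red B)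
    (H : Subgroup G) :
    numIrrInd red H B = Nat.card (IndS O (ordB red B) (Subtype.val : H → G)) := by
  have := Fintype.ofFinite H
  unfold numIrrInd
  refine Nat.card_congr (Equiv.subtypeEquivRight fun θ => ?_)
  constructor
  · rintro ⟨h1, h2⟩
    refine ⟨h1, fun χ hχ x => ?_⟩
    rw [Pool.Agent.Q90.WR.sum_eq_L']
    exact (cv_eq_iff hO hχ.1 H h1).mp (fun f hf => (h2 f hf).trans (hχ.2 f hf).symm) x
  · rintro ⟨h1, h2⟩
    refine ⟨h1, fun f hf => ?_⟩
    have h3 := (cv_eq_iff hO h0.1 H h1).mpr fun x => by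
      have h4 := h2 χ₀ h0 x
      rwa [Pool.Agent.Q90.WR.sum_eq_L'] at h4
    exact (h3 f hf).trans (h0.2 f hf)

theorem alt_eq (hO : Above red O) (p : ℕ) {B : (G → F) → F} {χ₀ : G → ℂ} (h0 : χ₀ ∈ ordB red B) :
    Pool.Agent.Y63.KR.alternatingSum p G (fun H => (numIrrInd red H B : ℤ)) =
      Pool.Agent.Q90.WR.blkAlt p O (ordB red B) := by
  unfold Pool.Agent.Q90.WR.blkAlt
  congr 1
  funext H
  rw [numIrrInd_eq hO h0]

/-! ### real blocks -/

theorem ordB_real {B : (G → F) → F} {χ₀ : G → ℂ} (h0 : χ₀ ∈ ordB red B)  :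
    PD.RealSet (ordB red B) ↔ ∀ f : G → F, IsClassFun f → B (vee f) = B f := by
  have hv : ∀ χ : G → ℂ, IsIrreducibleCharacter χ → (fun g => starRingEnd ℂ (χ g)) = vee χ :=
    fun χ h => funext fun g => (vee_eq_conj h g).symm
  constructor
  · intro h f hf
    have h1 := h χ₀ h0
    rw [hv χ₀ h0.1] at h1
    rw [← h0.2 _ (vee_class hf), ← centralValue_vee red h0.1 hf]
    exact h1.2 f hf
  · intro h χ hχ
    rw [hv χ hχ.1]
    refine ⟨char_vee hχ.1, fun f hf => ?_⟩
    rw [centralValue_vee red hχ.1 hf, hχ.2 _ (vee_class hf)]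
    exact h f hf

/-! ### blocks of positive defect -/

theorem deg_nat {χ : G → ℂ} (h : IsIrreducibleCharacter χ) :
    ∃ n : ℕ, n ≠ 0 ∧ χ 1 = (n : ℂ) ∧ n ∣ Nat.card G := by
  have := Fintype.ofFinite G
  obtain ⟨n, hn0, hn⟩ := H254R3.IN.IsIrr.deg h
  exact ⟨n, hn0.ne', hn.symm, Pool.Agent.Y63.AWC.deg_dvd h hn.symm⟩

variable {p : ℕ} [Fact p.Prime] [CharP F p]

theorem quot_nonunit (hO : Above red O) {χ : G → ℂ} (h : IsIrreducibleCharacter χ) :
    (Nat.card G : ℂ) / χ 1 ∈ O.nonunits ↔ ¬ IsWt p (⊥ : Subgroup G) χ := by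
  obtain ⟨n, hn0, hn, k, hk⟩ := deg_nat h
  have hG : Nat.card G ≠ 0 := Nat.card_pos.ne'
  have hk0 : k ≠ 0 := by
    rintro rfl
    exact hG (by rw [hk, mul_zero])
  have h1 : (Nat.card G : ℂ) / χ 1 = (k : ℂ) := by
    rw [hn, hk, Nat.cast_mul, mul_div_cancel_left₀ _ (by exact_mod_cast hn0)]
  have h2 : (k : ℂ) ∈ O.nonunits ↔ p ∣ k := by
    rw [← H254R3.IN.red_eq_zero_iff (H254R3.IN.natCast_mem' k),
      H254R3.IN.red_nat_eq_zero_iff hO.p_mem]
  have h3 : (Nat.card G).factorization p = n.factorization p + k.factorization p := by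
    rw [hk, Nat.factorization_mul hn0 hk0]
    rfl
  have h4 : k.factorization p = 0 ↔ ¬ p ∣ k := by
    rw [Nat.factorization_eq_zero_iff]
    constructor
    · rintro (h | h | h)
      · exact absurd Fact.out h
      · exact h
      · exact absurd h hk0
    · exact fun h => Or.inr (Or.inl h)
  rw [h1, h2]
  constructor
  · rintro hd ⟨_, _, m, hm, hm2⟩
    have e : m = n := by
      have : (m : ℂ) = n := hm.symm.trans hn
      exact_mod_cast this
    rw [e, Subgroup.card_bot, Nat.factorization_one, h3] at hm2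
    have h5 : k.factorization p = 0 := by
      simp only [Finsupp.coe_zero, Pi.zero_apply] at hm2
      omega
    exact h4.mp h5 hd
  · intro hw
    by_contra hd
    apply hw
    refine ⟨h, ?_, n, hn, ?_⟩
    · intro q hq x
      rw [Subgroup.mem_bot.mp hq, one_mul]
    · rw [Subgroup.card_bot, Nat.factorization_one, h3, h4.mpr hd]
      simp

theorem numDz_zero_iff (hO : Above red O) {B : (G → F) → F} {χ₀ : G → ℂ} (h0 : χ₀ ∈ ordB red B) :
    numDzBlock p red B = 0 ↔ GoodB O (ordB red B) := by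
  have hf : Finite {χ : G → ℂ // IsWt p (⊥ : Subgroup G) χ ∧
      ∀ f : G → F, IsClassFun f → centralValue red χ f = B f} := by
    have := irr_fin G
    exact Finite.of_injective (fun x => (⟨x.1, x.2.1.irr⟩ : {χ : G → ℂ // IsIrreducibleCharacter χ}))
      (fun x y hxy => Subtype.ext (congrArg (fun z : {χ : G → ℂ // IsIrreducibleCharacter χ} => z.1) hxy))
  constructor
  · intro h
    refine ⟨ordB_block hO h0, fun ψ hψ => ?_⟩
    rw [quot_nonunit (p := p) hO hψ.1]
    intro hw
    unfold numDzBlock at h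
    rw [Finite.card_eq_zero_iff] at h
    exact h.elim ⟨ψ, hw, hψ.2⟩
  · intro h
    unfold numDzBlock
    rw [Finite.card_eq_zero_iff]
    refine ⟨fun ψ => ?_⟩
    exact (quot_nonunit (p := p) hO ψ.2.1.irr).mp (h.pos ψ.1 ⟨ψ.2.1.irr, ψ.2.2⟩) ψ.2.1

end ord

end Pool.Agent.E8helper46.AW
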