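import Pool.Agent.Y63.NV.Kalt
import Pool.Agent.Y171.NV.Kfin
import Pool.Agent.R674.KB.Main
import Pool.Agent.Q90.WR.Gal
import Pool.Agent.Q90.WR.Krq
import Pool.Agent.Q99.CT.Basic

/-!
# Duality for blocks, Brauer characters and weights
-/

set_option autoImplicit false
set_option linter.unusedSectionVars false

open scoped BigOperators Classical

noncomputable section

namespace Pool.Agent.E8helper46.AW

open Pool.Agent.Y63.NV
open Pool.Agent.Y63.AWC (IsIrreducibleCharacter pSubgroupSetoid)

/-- the function `x ↦ f(x⁻¹)` -/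
def vee {G F : Type} [Group G] (f : G → F) : G → F := fun x => f x⁻¹

/-- the dual of a block -/
def veeB {G F : Type} [Group G] (B : (G → F) → F) : (G → F) → F := fun f => B (vee f)

section

variable {G F : Type} [Group G]

theorem vee_vee (f : G → F) : vee (vee f) = f := by
  funext x
  simp [vee]

theorem veeB_veeB (B : (G → F) → F) : veeB (veeB B) = B := by
  funext f
  simp only [veeB, vee_vee]

theorem vee_class [Field F] {f : G → F} (hf : IsClassFun f) : IsClassFun (vee f) := by
  intro g x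
  unfold vee
  have e : (g * x * g⁻¹)⁻¹ = g * x⁻¹ * g⁻¹ := by group
  rw [e]
  exact hf g x⁻¹

theorem class_comm [Field F] {f : G → F} (hf : IsClassFun f) (a b : G) : f (a * b) = f (b * a) := by
  have h := hf b (a * b)
  have e : b * (a * b) * b⁻¹ = b * a := by group
  rw [e] at h
  exact h.symm

variable [Field F]

theorem vee_conv {f g : G → F} (hg : IsClassFun g) :
    vee (conv f g) = conv (vee f) (vee g) := by
  funext x
  unfold vee conv
  rw [← finsum_comp_equiv (Equiv.inv G)]
  refine finsum_congr fun y => ?_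
  change f y⁻¹ * g ((y⁻¹)⁻¹ * x⁻¹) = f y⁻¹ * g (y⁻¹ * x)⁻¹
  rw [inv_inv, mul_inv_rev, inv_inv, class_comm hg]

theorem veeB_block {B : (G → F) → F} (hB : IsBlock B) : IsBlock (veeB B) := by
  refine ⟨fun f g hf hg => hB.add _ _ (vee_class hf) (vee_class hg),
    fun a f hf => hB.smul a _ (vee_class hf), ?_, fun f g hf hg => ?_⟩
  · refine Eq.trans (congrArg B ?_) hB.one
    funext x
    unfold vee Pi.single Function.update
    by_cases hx : x = 1
    · subst hx
      rw [inv_one]
    · rw [dif_neg hx, dif_neg (fun h => hx (inv_eq_one.mp h))]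
      rfl
  · change B (vee (conv f g)) = _
    rw [vee_conv hg]
    exact hB.mul _ _ (vee_class hf) (vee_class hg)

/-! ### the dual of an irreducible trace -/

/-- the subrepresentations of the dual -/
def dualSub {V : Type} [AddCommGroup V] [Module F V] [FiniteDimensional F V]
    (ρ : Representation F G V) :
    Subrepresentation ρ ≃o (Subrepresentation ρ.dual)ᵒᵈ where
  toFun U := OrderDual.toDual ⟨U.toSubmodule.dualAnnihilator, by
    intro g f hf
    rw [Submodule.mem_dualAnnihilator] at hf ⊢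
    intro v hv
    exact hf _ (U.apply_mem_toSubmodule g⁻¹ hv)⟩
  invFun W := ⟨(OrderDual.ofDual W).toSubmodule.dualCoannihilator, by
    intro g v hv
    rw [Submodule.mem_dualCoannihilator] at hv ⊢
    intro f hf
    have h := hv _ ((OrderDual.ofDual W).apply_mem_toSubmodule g⁻¹ hf)
    change f (ρ g⁻¹⁻¹ v) = 0 at h
    rwa [inv_inv] at h⟩
  left_inv U := by
    apply Subrepresentation.toSubmodule_injective
    exact Subspace.dualAnnihilator_dualCoannihilator_eq
  right_inv W := by
    apply OrderDual.ofDual.injective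
    apply Subrepresentation.toSubmodule_injective
    exact Subspace.dualCoannihilator_dualAnnihilator_eq
  map_rel_iff' := by
    intro U W
    exact Subspace.dualAnnihilator_le_dualAnnihilator_iff

theorem irr_vee {φ : G → F} (h : IsIrrTrace φ) : IsIrrTrace (vee φ) := by
  obtain ⟨V, _, _, _, ρ, hρ, rfl⟩ := h
  refine ⟨Module.Dual F V, inferInstance, inferInstance, inferInstance, ρ.dual, ?_, ?_⟩
  · have h1 : IsSimpleOrder (Subrepresentation ρ.dual)ᵒᵈ := (dualSub ρ).isSimpleOrder_iff.mp hρ
    have h2 : IsSimpleOrder (Subrepresentation ρ.dual)ᵒᵈᵒᵈ := inferInstance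
    exact h2
  · funext g
    exact (Representation.char_dual ρ g).symm

theorem irr_cl {φ : G → F} (h : IsIrrTrace φ) : IsClassFun φ := by
  obtain ⟨V, _, _, _, ρ, hρ, rfl⟩ := h
  exact fun g x => ρ.char_conj x g

/-- the block of the dual trace -/
theorem block_vee {φ : G → F} (h : IsIrrTrace φ) {B : (G → F) → F}
    (hB : ∀ f : G → F, IsClassFun f → ∀ x : G, ∑ᶠ g : G, f g * φ (g * x) = B f * φ x) :
    ∀ f : G → F, IsClassFun f → ∀ x : G, ∑ᶠ g : G, f g * vee φ (g * x) = veeB B f * vee φ x := by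
  intro f hf x
  have h1 := hB (vee f) (vee_class hf) x⁻¹
  change _ = B (vee f) * φ x⁻¹
  rw [← h1, ← finsum_comp_equiv (Equiv.inv G)]
  refine finsum_congr fun g => ?_
  change f g⁻¹ * φ (g⁻¹ * x)⁻¹ = f g⁻¹ * φ (g * x⁻¹)
  rw [mul_inv_rev, inv_inv, class_comm (irr_cl h)]

theorem numIrrBlock_vee (B : (G → F) → F) : numIrrBlock (veeB B) = numIrrBlock B := by
  unfold numIrrBlock
  refine Nat.card_congr
    { toFun := fun φ => ⟨vee φ.1, irr_vee φ.2.1, ?_⟩
      invFun := fun φ => ⟨vee φ.1, irr_vee φ.2.1, block_vee φ.2.1 φ.2.2⟩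
      left_inv := fun φ => Subtype.ext (vee_vee φ.1)
      right_inv := fun φ => Subtype.ext (vee_vee φ.1) }
  have h := block_vee φ.2.1 φ.2.2
  rw [veeB_veeB] at h
  exact h

end

/-! ### the dual of a weight -/

section wt

variable {J : Type} [Group J] [Finite J]

theorem char_vee {χ : J → ℂ} (h : IsIrreducibleCharacter χ) : IsIrreducibleCharacter (vee χ) :=
  irr_vee h

theorem vee_eq_conj {χ : J → ℂ} (h : IsIrreducibleCharacter χ) (g : J) :
    vee χ g = starRingEnd ℂ (χ g) := by
  obtain ⟨V, _, _, _, ρ, hρ, rfl⟩ := h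
  have hN : 0 < Nat.card J := Nat.card_pos
  set N := Nat.card J with hNdef
  have hg : g ^ N = 1 := pow_card_eq_one'
  have hζ := Complex.isPrimitiveRoot_exp N hN.ne'
  set ζ := Complex.exp (2 * Real.pi * Complex.I / N) with hζdef
  obtain ⟨m, hm⟩ := Pool.Agent.Q99.CT.char_expand ρ g hN hg hζ
  have h1 := hm 1
  have h2 := hm (N - 1)
  have e1 : g ^ (N - 1) = g⁻¹ := by
    rw [eq_inv_iff_mul_eq_one, ← pow_succ, Nat.sub_add_cancel hN, hg]
  rw [e1] at h2
  rw [pow_one] at h1
  unfold vee
  rw [h1, h2, map_sum]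
  refine Finset.sum_congr rfl fun i _ => ?_
  rw [map_mul, map_natCast, mul_one, map_pow]
  congr 1
  have h3 : ‖ζ‖ = 1 := hζ.norm'_eq_one hN.ne'
  rw [← Complex.inv_eq_conj h3, inv_pow]
  refine eq_inv_of_mul_eq_one_left ?_
  rw [← pow_add]
  have e2 : i * (N - 1) + i = N * i := by
    obtain ⟨k, hk⟩ : ∃ k, N = k + 1 := ⟨N - 1, by omega⟩
    rw [hk]
    simp
    ring
  rw [e2, pow_mul, hζ.pow_eq_one, one_pow]

theorem wt_vee {p : ℕ} {Q : Subgroup J} {χ : J → ℂ} (h : IsWt p Q χ) : IsWt p Q (vee χ) := by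
  refine ⟨irr_vee h.irr, ?_, ?_⟩
  · intro q hq x
    have hc : IsClassFun χ := irr_cl h.irr
    unfold vee
    rw [mul_inv_rev, class_comm hc]
    exact h.inflated _ (Q.inv_mem hq) _
  · obtain ⟨n, h1, h2⟩ := h.defectZero
    exact ⟨n, by unfold vee; rw [inv_one]; exact h1, h2⟩

/-- inversion on the conjugacy classes -/
def ccInv (J : Type) [Group J] : ConjClasses J ≃ ConjClasses J :=
  Function.Involutive.toPerm (Quotient.map (fun x : J => x⁻¹) (by
      intro x y h
      obtain ⟨c, hc⟩ := isConj_iff.mp h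
      refine isConj_iff.mpr ⟨c, ?_⟩
      rw [← hc]; group)) (by
    intro C
    induction C using Quotient.inductionOn with
    | _ x =>
      change ConjClasses.mk (x⁻¹)⁻¹ = ConjClasses.mk x
      rw [inv_inv])

theorem ccInv_mk (x : J) : ccInv J (ConjClasses.mk x) = ConjClasses.mk x⁻¹ := rfl

theorem mk_out' (C : ConjClasses J) : ConjClasses.mk C.out = C := Quotient.out_eq C

theorem centralValue_vee {F : Type} [Field F] (red : integralClosure ℤ ℂ →+* F) {χ : J → ℂ}
    (hχ : IsIrreducibleCharacter χ) {f : J → F} (hf : IsClassFun f) :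
    centralValue red (vee χ) f = centralValue red χ (vee f) := by
  unfold centralValue
  rw [← finsum_comp_equiv (ccInv J)]
  refine finsum_congr fun C => ?_
  have hc : IsClassFun χ := irr_cl hχ
  have h1 : IsConj (C.out)⁻¹ (ccInv J C).out := by
    rw [← ConjClasses.mk_eq_mk_iff_isConj, mk_out', ← ccInv_mk, mk_out']
  obtain ⟨c, hc1⟩ := isConj_iff.mp h1
  have h2 : f (ccInv J C).out = vee f C.out := by
    rw [← hc1, hf]
    rfl
  have h3 : vee χ (ccInv J C).out = χ C.out := by
    unfold vee
    have e : ((ccInv J C).out)⁻¹ = c * C.out * c⁻¹ := by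
      rw [← hc1]
      group
    rw [e, hc]
  have h4 : Nat.card (ccInv J C).carrier = Nat.card C.carrier := by
    refine (Nat.card_congr ((Equiv.inv J).subtypeEquiv fun x => ?_)).symm
    rw [ConjClasses.mem_carrier_iff_mk_eq, ConjClasses.mem_carrier_iff_mk_eq]
    change _ ↔ ConjClasses.mk x⁻¹ = _
    rw [← ccInv_mk]
    exact (ccInv J).injective.eq_iff.symm
  rw [h2, h3, h4]
  unfold vee
  rw [inv_one]

end wt

section wtb

variable {G F : Type} [Group G] [Field F] [Finite G]

theorem numWtBlock_vee (p : ℕ) (red : integralClosure ℤ ℂ →+* F) (Q : Subgroup G)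
    (B : (G → F) → F) : numWtBlock p red Q (veeB B) = numWtBlock p red Q B := by
  have key : ∀ (B : (G → F) → F) (χ : Subgroup.normalizer (Q : Set G) → ℂ),
      IsWt p (Q.subgroupOf (Subgroup.normalizer (Q : Set G))) χ →
      (∀ f : G → F, IsClassFun f → centralValue red χ (fun x => f x) = B f) →
      ∀ f : G → F, IsClassFun f → centralValue red (vee χ) (fun x => f x) = veeB B f := by
    intro B χ h1 h2 f hf
    rw [centralValue_vee red h1.irr (fun g x => hf g x)]
    exact h2 (vee f) (vee_class hf)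
  unfold numWtBlock
  refine Nat.card_congr
    { toFun := fun χ => ⟨vee χ.1, wt_vee χ.2.1, ?_⟩
      invFun := fun χ => ⟨vee χ.1, wt_vee χ.2.1, key B χ.1 χ.2.1 χ.2.2⟩
      left_inv := fun χ => Subtype.ext (vee_vee χ.1)
      right_inv := fun χ => Subtype.ext (vee_vee χ.1) }
  have h := key (veeB B) χ.1 χ.2.1 χ.2.2
  rw [veeB_veeB] at h
  exact h

end wtb

end Pool.Agent.E8helper46.AW
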