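import Pool.Agent.E8helper46.AW.Red2
import Pool.Agent.Q90.WR.Bcl

/-!
# The alternating sum of a real block, modulo two
-/

set_option autoImplicit false
set_option linter.unusedSectionVars false

open scoped BigOperators Classical

noncomputable section

namespace Pool.Agent.E8helper46.AW

open Pool.Agent.Y63.NV Pool.Agent.Y286.NV Pool.Agent.Y63.NV.B286
open Pool.Agent.Y171.NV
open Pool.Agent.Y63.KR (IsPChain chainStabilizer alternatingSum conjSub chainSetoid)
open Pool.Agent.Y63.AWC (IsIrreducibleCharacter pSubgroupSetoid)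

section conj

variable {F : Type} [Field F] {Γ : Type} [Group Γ] [Finite Γ]

/-- conjugation as an equivalence on the subgroups -/
def cS (g : Γ) : Subgroup Γ ≃ Subgroup Γ := (MulAut.conj g).mapSubgroup.toEquiv

theorem cS_apply (g : Γ) (Q : Subgroup Γ) : cS g Q = conjSub g Q := rfl

theorem card_conjSub (g : Γ) (H : Subgroup Γ) : Nat.card (conjSub g H) = Nat.card H :=
  Nat.card_congr (Pool.Agent.Q90.WR.conjEquiv g H).symm.toEquiv

theorem conjEquiv_coe (g : Γ) (H : Subgroup Γ) (x : H) :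
    ((Pool.Agent.Q90.WR.conjEquiv g H x : conjSub g H) : Γ) = g * x * g⁻¹ := rfl

theorem cut_on {z : Γ → F} {H : Subgroup Γ} (x : H) : cut z H x = z x := if_pos x.2

theorem lsum_conj {z : Γ → F} (hz : IsClassFun z) (c : F) (g : Γ) (H : Subgroup Γ) :
    Lsum ⊤ (conjSub g H) (cut z (conjSub g H)) c = Lsum ⊤ H (cut z H) c := by
  unfold Lsum
  rw [if_pos (top_sup_eq _), if_pos (top_sup_eq _), card_conjSub, top_inf_eq, top_inf_eq]
  congr 2
  symm
  refine Pool.Agent.Y210.NV2.lnum_congr _ _ _ _ _ _ c (Pool.Agent.Q90.WR.conjEquiv g H)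
    (fun x => ?_) fun φ => ⟨?_, ?_⟩
  · rw [cut_on, cut_on, conjEquiv_coe, hz]
  · intro h k hk x y hxy
    refine h (g * k * g⁻¹) ?_ _ _ ?_
    · exact (Pool.Agent.Q90.WR.conjEquiv g H ⟨k, hk⟩).2
    · rw [conjEquiv_coe, conjEquiv_coe, hxy]
      group
  · intro h k hk x y hxy
    obtain ⟨x, rfl⟩ := (Pool.Agent.Q90.WR.conjEquiv g H).surjective x
    obtain ⟨y, rfl⟩ := (Pool.Agent.Q90.WR.conjEquiv g H).surjective y
    obtain ⟨k, rfl⟩ : ∃ k' : H, ((Pool.Agent.Q90.WR.conjEquiv g H k' : conjSub g H) : Γ) = k := by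
      obtain ⟨k', hk'⟩ := (Pool.Agent.Q90.WR.conjEquiv g H).surjective ⟨k, hk⟩
      exact ⟨k', congrArg Subtype.val hk'⟩
    refine h k k.2 x y ?_
    rw [conjEquiv_coe, conjEquiv_coe, conjEquiv_coe] at hxy
    have h2 : (y : Γ) = g⁻¹ * (g * y * g⁻¹) * g := by group
    rw [h2, hxy]
    group

theorem inf_conj (g : Γ) (H Q : Subgroup Γ) :
    conjSub g (H ⊓ Subgroup.normalizer (Q : Set Γ)) =
      conjSub g H ⊓ Subgroup.normalizer ((conjSub g Q : Subgroup Γ) : Set Γ) := by
  unfold conjSub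
  rw [← Pool.Agent.Y63.AWC.normalizer_map (MulAut.conj g) Q]
  exact Subgroup.map_inf _ _ _ (MulAut.conj g).injective

theorem wsum_conj {p : ℕ} (red : integralClosure ℤ ℂ →+* F) {z : Γ → F} (hz : IsClassFun z)
    (c : F) (g : Γ) (H : Subgroup Γ) :
    Wsum p red ⊤ (conjSub g H) z c = Wsum p red ⊤ H z c := by
  unfold Wsum
  rw [← finsum_comp_equiv (cS g)]
  refine finsum_congr fun Q => ?_
  rw [cS_apply]
  have h1 : (IsPGroup p (conjSub g Q) ∧ conjSub g Q ≤ conjSub g H ∧
      (⊤ : Subgroup Γ) ⊔ conjSub g Q = ⊤) ↔ (IsPGroup p Q ∧ Q ≤ H ∧ (⊤ : Subgroup Γ) ⊔ Q = ⊤) := by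
    refine and_congr ?_ (and_congr ?_ ?_)
    · constructor
      · exact fun h => h.of_equiv (Pool.Agent.Q90.WR.conjEquiv g Q).symm
      · exact fun h => h.of_equiv (Pool.Agent.Q90.WR.conjEquiv g Q)
    · exact Subgroup.map_le_map_iff_of_injective (MulAut.conj g).injective
    · rw [top_sup_eq, top_sup_eq]
  rw [if_congr h1 rfl rfl]
  refine if_congr Iff.rfl ?_ rfl
  rw [← inf_conj, card_conjSub]
  congr 2
  symm
  refine Pool.Agent.Y624.NV.nw_congr p red
    (Pool.Agent.Q90.WR.conjEquiv g (H ⊓ Subgroup.normalizer (Q : Set Γ))) (fun x => ?_)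
    (fun x => ?_) (fun a x => hz a x) c
  · rw [Subgroup.mem_subgroupOf, Subgroup.mem_subgroupOf, conjEquiv_coe]
    exact mem_conj
  · rw [conjEquiv_coe, hz]

end conj

section

variable {p : ℕ} [Fact p.Prime] {F : Type} [Field F] [IsAlgClosed F] [CharP F p]
  {Γ : Type} [Group Γ] [Finite Γ]

/-- the difference for one subgroup -/
def Del (p : ℕ) (red : integralClosure ℤ ℂ →+* F) (z : Γ → F) (c : F) (H : Subgroup Γ) : ℤ :=
  Lsum ⊤ H (cut z H) c - Wsum p red ⊤ H z c

theorem del_dvd (red : integralClosure ℤ ℂ →+* F) {z : Γ → F} (hz : IsClassFun z)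
    (hs : vee z = z) (c : F) (H : Subgroup Γ) (h : Par p red H) :
    (2 : ℤ) * Nat.card H ∣ Del p red z c H := by
  unfold Del
  rw [parts.trl F Γ ⊤ H (cut z H) c (top_sup_eq H),
    Pool.Agent.Y624.NV.trn p F red Γ ⊤ H z c (top_sup_eq H) (fun h _ x => hz h x),
    Subgroup.top_subgroupOf]
  have e1 : (fun x : H => cut z H x) = fun x : H => z x := by
    funext x
    unfold cut
    rw [if_pos x.2]
  rw [e1]
  exact base2 red H h (fun x : H => z x) (fun g x => hz g x)
    (by funext x; exact congrFun hs x) c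

/-- the difference divided by twice the order -/
def Del2 (p : ℕ) (red : integralClosure ℤ ℂ →+* F) (z : Γ → F) (c : F) (H : Subgroup Γ) : ℤ :=
  Del p red z c H / (2 * Nat.card H)

theorem del2_conj (red : integralClosure ℤ ℂ →+* F) {z : Γ → F} (hz : IsClassFun z) (c : F)
    (g : Γ) (H : Subgroup Γ) : Del2 p red z c (conjSub g H) = Del2 p red z c H := by
  unfold Del2 Del
  rw [lsum_conj hz, wsum_conj red hz, card_conjSub]

/-- the symmetric class functions, as class functions -/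
def symC (Γ F : Type) [Group Γ] [Field F] : ZGs F (⊤ : Subgroup Γ) →ₗ[F] CFm Γ F where
  toFun z := ⟨z.1, z.2.1.conj⟩
  map_add' _ _ := rfl
  map_smul' _ _ := rfl

/-- **the alternating sum of a real block**, modulo two -/
theorem kr_par (red : integralClosure ℤ ℂ →+* F)
    (hpar : ∀ σ : Set (Subgroup Γ), IsPChain p σ → Par p red (chainStabilizer σ))
    (B : (Γ → F) → F) (hB : IsBlock B) (hr : ∀ f : Γ → F, IsClassFun f → B (vee f) = B f) :
    (2 : ℤ) ∣ alternatingSum p Γ (fun H => (numIrrInd red H B : ℤ)) - numDzBlock p red B := by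
  have hInf : Infinite F := inferInstance
  have hX : ∀ H : Subgroup Γ, Finite {χ : H → ℂ // IsIrreducibleCharacter χ} := fun H => irr_fin H
  have hY : Finite {χ : Γ → ℂ // IsWt p (⊥ : Subgroup Γ) χ} := wt_fin p Γ
  have hCh : Finite {σ : Set (Subgroup Γ) // IsPChain p σ} := inferInstance
  let I : Type := {χ : Γ → ℂ // IsWt p (⊥ : Subgroup Γ) χ} ⊕
    (Σ σ : {σ : Set (Subgroup Γ) // IsPChain p σ},
      {χ : chainStabilizer σ.1 → ℂ // IsIrreducibleCharacter χ})
  let μ : I → (ZGs F (⊤ : Subgroup Γ) →ₗ[F] F) := fun i =>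
    Sum.elim (fun χ => (mud red χ.1).comp (symC Γ F))
      (fun q => (mu red (chainStabilizer q.1.1) q.2.1).comp (symC Γ F)) i
  have hI : Finite I := inferInstance
  obtain ⟨z, hz⟩ := exists_sep μ ((blk hB).comp (symC Γ F))
  set c : F := B z.1 with hc
  have hzc : IsClassFun z.1 := z.2.1.conj
  have hzs : vee z.1 = z.1 := z.2.2
  -- equality of blocks
  have hdet : ∀ B' : (Γ → F) → F, IsBlock B' →
      (∀ z' : Γ → F, InZ (⊤ : Subgroup Γ) z' → vee z' = z' → B' z' = B z') →
      ∀ f : Γ → F, IsClassFun f → B' f = B f := by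
    intro B' hB' h f hf
    exact sym_det hB hB' hr h f ⟨hf, fun x hx => absurd (Subgroup.mem_top x) hx⟩
  have e1 : ∀ σ : {σ : Set (Subgroup Γ) // IsPChain p σ},
      Knum red (fun x : chainStabilizer σ.1 => z.1 x) c = numIrrInd red (chainStabilizer σ.1) B := by
    intro σ
    unfold Knum numIrrInd
    refine Nat.card_congr (Equiv.subtypeEquivRight fun χ => and_congr_right fun hχ => ?_)
    constructor
    · intro h2 f hf
      have h3 : (mu red (chainStabilizer σ.1) χ).comp (symC Γ F) = (blk hB).comp (symC Γ F) :=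
        hz (Sum.inr ⟨σ, χ, hχ⟩) h2
      exact hdet _ (Pool.Agent.R674.KB.kblk p F red Γ σ.1 χ σ.2 hχ) (fun z' hz' hs' =>
        LinearMap.congr_fun h3 (⟨z', hz', hs'⟩ : ZGs F (⊤ : Subgroup Γ))) f hf
    · intro h2
      exact h2 z.1 hzc
  have e2 : Nw p red (⊥ : Subgroup Γ) z.1 c = numDzBlock p red B := by
    unfold Nw numDzBlock
    refine Nat.card_congr (Equiv.subtypeEquivRight fun χ => and_congr_right fun hχ => ?_)
    constructor
    · intro h2 f hf
      have h3 : (mud red χ).comp (symC Γ F) = (blk hB).comp (symC Γ F) :=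
        hz (Sum.inl ⟨χ, hχ⟩) h2
      exact hdet _ (Pool.Agent.Y930.NV.cvh F red Γ χ hχ.irr) (fun z' hz' hs' =>
        LinearMap.congr_fun h3 (⟨z', hz', hs'⟩ : ZGs F (⊤ : Subgroup Γ))) f hf
    · intro h2
      exact h2 z.1 hzc
  have h1 := ksum_sub (p := p) Pool.Agent.R674.KB.kdimh Pool.Agent.R674.KB.kfilt red hzc c
  rw [e2] at h1
  have h2 : (∑ᶠ σ : {σ : Set (Subgroup Γ) // IsPChain p σ}, (-1) ^ σ.1.ncard *
      ((Nat.card (chainStabilizer σ.1) : ℤ) *
        Knum red (fun x : chainStabilizer σ.1 => z.1 x) c)) =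
      (Nat.card Γ : ℤ) * alternatingSum p Γ (fun H => (numIrrInd red H B : ℤ)) := by
    rw [card_mul_alt (fun H => (numIrrInd red H B : ℤ)) (fun g H => by rw [numIrrInd_conj])]
    exact finsum_congr fun σ => by rw [e1]
  have h3 : (∑ᶠ σ : {σ : Set (Subgroup Γ) // IsPChain p σ}, (-1) ^ σ.1.ncard *
      (Lsum ⊤ (chainStabilizer σ.1) (cut z.1 (chainStabilizer σ.1)) c -
        Wsum p red ⊤ (chainStabilizer σ.1) z.1 c)) =
      (Nat.card Γ : ℤ) * (2 * alternatingSum p Γ (fun H => Del2 p red z.1 c H)) := by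
    have : Fintype {σ : Set (Subgroup Γ) // IsPChain p σ} := Fintype.ofFinite _
    have h4 := card_mul_alt (p := p) (fun H => Del2 p red z.1 c H)
      (fun g H => del2_conj red hzc c g H)
    rw [mul_left_comm, h4, finsum_eq_sum_of_fintype, finsum_eq_sum_of_fintype, Finset.mul_sum]
    refine Finset.sum_congr rfl fun σ _ => ?_
    have h5 := del_dvd red hzc hzs c (chainStabilizer σ.1) (hpar σ.1 σ.2)
    have h6 : (2 * (Nat.card (chainStabilizer σ.1) : ℤ)) * Del2 p red z.1 c (chainStabilizer σ.1) =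
        Del p red z.1 c (chainStabilizer σ.1) := Int.mul_ediv_cancel' h5
    change (-1) ^ σ.1.ncard * Del p red z.1 c (chainStabilizer σ.1) = _
    rw [← h6]
    ring
  rw [h2, h3, ← mul_sub] at h1
  have hpos : (Nat.card Γ : ℤ) ≠ 0 := by exact_mod_cast Nat.card_pos.ne'
  exact ⟨_, mul_left_cancel₀ hpos h1⟩

end

end Pool.Agent.E8helper46.AW
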