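import Pool.Agent.E8helper46.AW.Dz

/-!
# The blockwise weight conjecture is decided by parities of real blocks
-/

set_option autoImplicit false
set_option linter.unusedSectionVars false

open scoped BigOperators Classical

noncomputable section

namespace Pool.Agent.E8helper46.AW

open Pool.Agent.Y63.NV
open Pool.Agent.Y63.KR (IsPChain chainStabilizer alternatingSum)
open Pool.Agent.Y63.AWC (IsIrreducibleCharacter pSubgroupSetoid)
open Pool.Agent.Q90.WR (Wr invol_mod)
open Pool.Agent.R674.KB (kdimh kfilt kfin')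

section

variable {p : ℕ} [hp : Fact p.Prime] {F : Type} [Field F] [IsAlgClosed F] [CharP F p]
  (red : integralClosure ℤ ℂ →+* F) (X : ∀ (G : Type) [Group G], Prop)

theorem krb_X (hp2 : p ≠ 2) (hX : Closed p X) (hwr : ∀ (G : Type) [Group G], X G → X (Wr G))
    (hpar : ∀ (G : Type) [Group G] [Finite G], X G → Par p red G)
    (G : Type) [Group G] [Finite G] (hG : X G) : KRB p red G := by
  obtain ⟨O, hO⟩ := exists_above (p := p) red
  intro B hB
  obtain ⟨χ₀, hi, h0⟩ := exists_char red hB
  have h1 : χ₀ ∈ ordB red B := ⟨hi, h0⟩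
  by_cases hz : numDzBlock p red B = 0
  · rw [hz, alt_eq hO p h1, all_zero hp2 hO hX.sub hwr hpar G hG ((numDz_zero_iff hO h1).mp hz)]
    rfl
  · have hne : Nonempty {χ : G → ℂ // IsWt p (⊥ : Subgroup G) χ ∧
        ∀ f : G → F, IsClassFun f → centralValue red χ f = B f} := by
      by_contra hem
      rw [not_nonempty_iff] at hem
      exact hz Nat.card_of_isEmpty
    obtain ⟨ψ, h2, h3⟩ := hne
    exact kr_dz red h2 h3

theorem bawc_X (hX : Closed p X)
    (hk : ∀ (G : Type) [Group G] [Finite G], X G → KRB p red G)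
    (G : Type) [Group G] [Finite G] (hG : X G) : BAWC p red G := by
  rw [bawc_iff]
  refine bawc_reduction' red X hX ?_ (Nat.card G) G le_rfl
    ⟨⊤, inferInstance, hX.iso _ _ hG ⟨Subgroup.topEquiv.symm⟩, pgroup_top p G⟩
  intro H _ _ hH hR hsmall
  refine bawc_of_krb kdimh kfilt kfin' red (fun σ hσ hne => ?_) (hk H hH)
  have hXP : XP p X (chainStabilizer σ) :=
    (xp_closed p X hX).sub H ⟨⊤, inferInstance,
      hX.iso _ _ hH ⟨Subgroup.topEquiv.symm⟩, pgroup_top p H⟩ _
  exact hsmall (chainStabilizer σ) hXP (stab_lt hR.radical hσ hne)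

/-- **parities suffice** -/
theorem main_par (hp2 : p ≠ 2) (hX : Closed p X)
    (hwr : ∀ (G : Type) [Group G], X G → X (Wr G))
    (h : ∀ (G : Type) [Group G] [Finite G], X G → Reduced p G → Par p red G)
    (G : Type) [Group G] [Finite G] (hG : X G) : BAWC p red G := by
  refine bawc_X red X hX (fun G _ _ hG => ?_) G hG
  exact krb_X red X hp2 hX hwr
    (fun G _ _ hG => par_reduction hp2 red X hX h (Nat.card G) G le_rfl hG) G hG

end

/-! ### self-dual modules and real-valued weights -/

section dual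

variable {F : Type} [Field F] {G : Type} [Group G]

/-- the number of the irreducible traces `φ` of `G` over `F` in the block `B` with
`φ(g⁻¹) = φ(g)` -/
def numSelfDual (B : (G → F) → F) : ℕ :=
  Nat.card {φ : G → F // (IsIrrTrace φ ∧
    ∀ f : G → F, IsClassFun f → ∀ x : G, ∑ᶠ g : G, f g * φ (g * x) = B f * φ x) ∧
    ∀ g : G, φ g⁻¹ = φ g}

/-- the number of the real-valued irreducible characters of `N_G(Q)/Q` of `p`-defect zero such that
the block of `G` induced by the block of the inflation `χ` is `B` -/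
def numRealWt (p : ℕ) (red : integralClosure ℤ ℂ →+* F) (Q : Subgroup G) (B : (G → F) → F) : ℕ :=
  Nat.card {χ : Subgroup.normalizer (Q : Set G) → ℂ //
    (IsWt p (Q.subgroupOf (Subgroup.normalizer (Q : Set G))) χ ∧
    ∀ f : G → F, IsClassFun f → centralValue red χ (fun x => f x) = B f) ∧
    ∀ g, (χ g).im = 0}

variable [Finite G]

theorem selfdual_mod [IsAlgClosed F] {B : (G → F) → F} (hr : ∀ f : G → F, IsClassFun f → B (vee f) = B f) :
    numIrrBlock B ≡ numSelfDual B [MOD 2] := by
  have h0 : S_IRR := Pool.Agent.Y914.NV.irr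
  have hfin : Finite {φ : G → F // IsIrrTrace φ} := (h0 F G).1.to_subtype
  have hfin2 : Finite {φ : G → F // IsIrrTrace φ ∧
      ∀ f : G → F, IsClassFun f → ∀ x : G, ∑ᶠ g : G, f g * φ (g * x) = B f * φ x} :=
    Finite.of_injective (fun x => (⟨x.1, x.2.1⟩ : {φ : G → F // IsIrrTrace φ}))
      (fun x y hxy => Subtype.ext (congrArg (fun z : {φ : G → F // IsIrrTrace φ} => z.1) hxy))
  let f : {φ : G → F // IsIrrTrace φ ∧
      ∀ f : G → F, IsClassFun f → ∀ x : G, ∑ᶠ g : G, f g * φ (g * x) = B f * φ x} →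
      {φ : G → F // IsIrrTrace φ ∧
      ∀ f : G → F, IsClassFun f → ∀ x : G, ∑ᶠ g : G, f g * φ (g * x) = B f * φ x} :=
    fun φ => ⟨vee φ.1, irr_vee φ.2.1, fun f hf x => by
      rw [block_vee φ.2.1 φ.2.2 f hf x]
      change B (vee f) * _ = _
      rw [hr f hf]⟩
  have hf : ∀ x, f (f x) = x := fun x => Subtype.ext (vee_vee x.1)
  have h := invol_mod f hf
  have e : Nat.card {x // f x = x} = numSelfDual B := by
    unfold numSelfDual
    exact Nat.card_congr
      { toFun := fun x => ⟨x.1.1, x.1.2, fun g => congrFun (congrArg Subtype.val x.2) g⟩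
        invFun := fun x => ⟨⟨x.1, x.2.1⟩, Subtype.ext (funext fun g => x.2.2 g)⟩
        left_inv := fun x => rfl
        right_inv := fun x => rfl }
  rw [e] at h
  exact h

theorem realwt_mod (p : ℕ) (red : integralClosure ℤ ℂ →+* F) (Q : Subgroup G) {B : (G → F) → F}
    (hr : ∀ f : G → F, IsClassFun f → B (vee f) = B f) :
    numWtBlock p red Q B ≡ numRealWt p red Q B [MOD 2] := by
  have hfin := Pool.Agent.Y171.NV.irr_fin (Subgroup.normalizer (Q : Set G))
  have hfin2 : Finite {χ : Subgroup.normalizer (Q : Set G) → ℂ //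
      IsWt p (Q.subgroupOf (Subgroup.normalizer (Q : Set G))) χ ∧
      ∀ f : G → F, IsClassFun f → centralValue red χ (fun x => f x) = B f} :=
    Finite.of_injective (fun x => (⟨x.1, x.2.1.irr⟩ :
      {χ : Subgroup.normalizer (Q : Set G) → ℂ // IsIrreducibleCharacter χ}))
      (fun x y hxy => Subtype.ext (congrArg (fun z :
        {χ : Subgroup.normalizer (Q : Set G) → ℂ // IsIrreducibleCharacter χ} => z.1) hxy))
  let f : {χ : Subgroup.normalizer (Q : Set G) → ℂ //
      IsWt p (Q.subgroupOf (Subgroup.normalizer (Q : Set G))) χ ∧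
      ∀ f : G → F, IsClassFun f → centralValue red χ (fun x => f x) = B f} →
      {χ : Subgroup.normalizer (Q : Set G) → ℂ //
      IsWt p (Q.subgroupOf (Subgroup.normalizer (Q : Set G))) χ ∧
      ∀ f : G → F, IsClassFun f → centralValue red χ (fun x => f x) = B f} :=
    fun χ => ⟨vee χ.1, wt_vee χ.2.1, fun f hf => by
      rw [centralValue_vee red χ.2.1.irr (fun g x => hf g x)]
      have h1 := χ.2.2 (vee f) (vee_class hf)
      rw [hr f hf] at h1
      exact h1⟩
  have hf : ∀ x, f (f x) = x := fun x => Subtype.ext (vee_vee x.1)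
  have h := invol_mod f hf
  have e : Nat.card {x // f x = x} = numRealWt p red Q B := by
    unfold numRealWt
    refine Nat.card_congr
      { toFun := fun x => ⟨x.1.1, x.1.2, fun g => ?_⟩
        invFun := fun x => ⟨⟨x.1, x.2.1⟩, Subtype.ext (funext fun g => ?_)⟩
        left_inv := fun x => rfl
        right_inv := fun x => rfl }
    · have h1 : vee x.1.1 g = x.1.1 g := congrFun (congrArg Subtype.val x.2) g
      rw [vee_eq_conj x.1.2.1.irr] at h1
      exact Complex.conj_eq_iff_im.mp h1
    · change vee x.1 g = x.1 g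
      rw [vee_eq_conj x.2.1.1.irr]
      exact Complex.conj_eq_iff_im.mpr (x.2.2 g)
  rw [e] at h
  exact h

theorem par_iff [IsAlgClosed F] (p : ℕ) (red : integralClosure ℤ ℂ →+* F) {B : (G → F) → F}
    (hr : ∀ f : G → F, IsClassFun f → B (vee f) = B f) :
    (numIrrBlock B ≡ ∑ᶠ c : Quotient (pSubgroupSetoid p G), numWtBlock p red c.out.1 B [MOD 2]) ↔
    (numSelfDual B ≡ ∑ᶠ c : Quotient (pSubgroupSetoid p G), numRealWt p red c.out.1 B [MOD 2]) := by
  have : Fintype (Quotient (pSubgroupSetoid p G)) := Fintype.ofFinite _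
  have h1 := selfdual_mod hr
  have h2 : ∑ᶠ c : Quotient (pSubgroupSetoid p G), numWtBlock p red c.out.1 B ≡
      ∑ᶠ c : Quotient (pSubgroupSetoid p G), numRealWt p red c.out.1 B [MOD 2] := by
    rw [finsum_eq_sum_of_fintype, finsum_eq_sum_of_fintype]
    exact Nat.ModEq.sum fun c _ => realwt_mod p red c.out.1 hr
  constructor
  · intro h
    exact h1.symm.trans (h.trans h2)
  · intro h
    exact h1.trans (h.trans h2.symm)

end dual

section

variable {p : ℕ} [hp : Fact p.Prime] {F : Type} [Field F] [IsAlgClosed F] [CharP F p]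

/-- **the three conditions** -/
theorem main_tfae (hp2 : p ≠ 2) (red : integralClosure ℤ ℂ →+* F)
    (X : ∀ (G : Type) [Group G], Prop) (hX : Closed p X)
    (hwr : ∀ (G : Type) [Group G], X G → X (Wr G)) :
    List.TFAE [
      ∀ (G : Type) [Group G] [Finite G], X G → BAWC p red G,
      ∀ (G : Type) [Group G] [Finite G], X G → Reduced p G → ∀ B : (G → F) → F, IsBlock B →
        (∀ f : G → F, IsClassFun f → B (fun x => f x⁻¹) = B f) →
        numIrrBlock B ≡ ∑ᶠ c : Quotient (pSubgroupSetoid p G), numWtBlock p red c.out.1 B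
          [MOD 2],
      ∀ (G : Type) [Group G] [Finite G], X G → Reduced p G → ∀ B : (G → F) → F, IsBlock B →
        (∀ f : G → F, IsClassFun f → B (fun x => f x⁻¹) = B f) →
        numSelfDual B ≡ ∑ᶠ c : Quotient (pSubgroupSetoid p G), numRealWt p red c.out.1 B
          [MOD 2]] := by
  tfae_have 1 → 2 := by
    intro h G _ _ hG _ B hB _
    rw [h G hG B hB]
  tfae_have 2 ↔ 3 := by
    constructor
    · intro h G _ _ hG hR B hB hr
      exact (par_iff p red hr).mp (h G hG hR B hB hr)
    · intro h G _ _ hG hR B hB hr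
      exact (par_iff p red hr).mpr (h G hG hR B hB hr)
  tfae_have 2 → 1 := by
    intro h
    exact main_par red X hp2 hX hwr fun G _ _ hG hR B hB hr => h G hG hR B hB hr
  tfae_finish

end

end Pool.Agent.E8helper46.AW
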