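import Pool.Agent.E8helper46.AW.Main
import Pool.Agent.Y63.NV.PeL

/-!
# Navarro's equality is decided by parities of real blocks
-/

set_option autoImplicit false
set_option linter.unusedSectionVars false

open scoped BigOperators Classical

noncomputable section

namespace Pool.Agent.E8helper46.AW

open Pool.Agent.Y63.NV
open Pool.Agent.Y63.AWC (IsIrreducibleCharacter pSubgroupSetoid)
open Pool.Agent.Q90.WR (Wr invol_mod)

section

variable {F : Type} [Field F] {Γ : Type} [Group Γ]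

/-- the number of the self-dual `Γ`-invariant irreducible characters of `G` over `F` in `B` -/
def numIBrSD (G : Subgroup Γ) (B : (G → F) → F) : ℕ :=
  Nat.card {φ : G → F // (IsIrrTrace φ ∧ IsInvUnder ⊤ φ ∧
    ∀ f : G → F, IsClassFun f → ∀ x : G, ∑ᶠ g : G, f g * φ (g * x) = B f * φ x) ∧
    ∀ g : G, φ g⁻¹ = φ g}

/-- the number of the real-valued members of `dz(N_Γ(Q)/Q | B)` -/
def numDzR (p : ℕ) (red : integralClosure ℤ ℂ →+* F) (G : Subgroup Γ) (Q : Subgroup Γ)
    (B : (G → F) → F) : ℕ :=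
  Nat.card {χ : Subgroup.normalizer (Q : Set Γ) → ℂ //
    (IsWt p (Q.subgroupOf (Subgroup.normalizer (Q : Set Γ))) χ ∧
    ∀ z : Γ → F, InZ G z → centralValue red χ (fun x => z x) = B (fun x : G => z x)) ∧
    ∀ g, (χ g).im = 0}

variable [Finite Γ]

theorem ibr_mod [IsAlgClosed F] (G : Subgroup Γ) {B : (G → F) → F}
    (hr : ∀ f : G → F, IsClassFun f → B (vee f) = B f) : numIBr G B ≡ numIBrSD G B [MOD 2] := by
  have h0 : S_IRR := Pool.Agent.Y914.NV.irr
  have hfin : Finite {φ : G → F // IsIrrTrace φ} := (h0 F G).1.to_subtype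
  have hfin2 : Finite {φ : G → F // IsIrrTrace φ ∧ IsInvUnder ⊤ φ ∧
      ∀ f : G → F, IsClassFun f → ∀ x : G, ∑ᶠ g : G, f g * φ (g * x) = B f * φ x} :=
    Finite.of_injective (fun x => (⟨x.1, x.2.1⟩ : {φ : G → F // IsIrrTrace φ}))
      (fun x y hxy => Subtype.ext (congrArg (fun z : {φ : G → F // IsIrrTrace φ} => z.1) hxy))
  let f : {φ : G → F // IsIrrTrace φ ∧ IsInvUnder ⊤ φ ∧
      ∀ f : G → F, IsClassFun f → ∀ x : G, ∑ᶠ g : G, f g * φ (g * x) = B f * φ x} →
      {φ : G → F // IsIrrTrace φ ∧ IsInvUnder ⊤ φ ∧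
      ∀ f : G → F, IsClassFun f → ∀ x : G, ∑ᶠ g : G, f g * φ (g * x) = B f * φ x} :=
    fun φ => ⟨vee φ.1, irr_vee φ.2.1, fun h hh x y hxy => by
      refine φ.2.2.1 h hh x⁻¹ y⁻¹ ?_
      rw [Subgroup.coe_inv, Subgroup.coe_inv, hxy]
      group, fun f hf x => by
      rw [block_vee φ.2.1 φ.2.2.2 f hf x]
      change B (vee f) * _ = _
      rw [hr f hf]⟩
  have hf : ∀ x, f (f x) = x := fun x => Subtype.ext (vee_vee x.1)
  have h := invol_mod f hf
  have e : Nat.card {x // f x = x} = numIBrSD G B := by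
    unfold numIBrSD
    exact Nat.card_congr
      { toFun := fun x => ⟨x.1.1, x.1.2, fun g => congrFun (congrArg Subtype.val x.2) g⟩
        invFun := fun x => ⟨⟨x.1, x.2.1⟩, Subtype.ext (funext fun g => x.2.2 g)⟩
        left_inv := fun x => rfl
        right_inv := fun x => rfl }
  rw [e] at h
  exact h

theorem dz_mod (p : ℕ) (red : integralClosure ℤ ℂ →+* F) (G Q : Subgroup Γ) {B : (G → F) → F}
    (hr : ∀ f : G → F, IsClassFun f → B (vee f) = B f) :
    numDz p red G Q B ≡ numDzR p red G Q B [MOD 2] := by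
  have hfin := Pool.Agent.Y171.NV.irr_fin (Subgroup.normalizer (Q : Set Γ))
  have hfin2 : Finite {χ : Subgroup.normalizer (Q : Set Γ) → ℂ //
      IsWt p (Q.subgroupOf (Subgroup.normalizer (Q : Set Γ))) χ ∧
      ∀ z : Γ → F, InZ G z → centralValue red χ (fun x => z x) = B (fun x : G => z x)} :=
    Finite.of_injective (fun x => (⟨x.1, x.2.1.irr⟩ :
      {χ : Subgroup.normalizer (Q : Set Γ) → ℂ // IsIrreducibleCharacter χ}))
      (fun x y hxy => Subtype.ext (congrArg (fun z :
        {χ : Subgroup.normalizer (Q : Set Γ) → ℂ // IsIrreducibleCharacter χ} => z.1) hxy))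
  let f : {χ : Subgroup.normalizer (Q : Set Γ) → ℂ //
      IsWt p (Q.subgroupOf (Subgroup.normalizer (Q : Set Γ))) χ ∧
      ∀ z : Γ → F, InZ G z → centralValue red χ (fun x => z x) = B (fun x : G => z x)} →
      {χ : Subgroup.normalizer (Q : Set Γ) → ℂ //
      IsWt p (Q.subgroupOf (Subgroup.normalizer (Q : Set Γ))) χ ∧
      ∀ z : Γ → F, InZ G z → centralValue red χ (fun x => z x) = B (fun x : G => z x)} :=
    fun χ => ⟨vee χ.1, wt_vee χ.2.1, fun z hz => by
      rw [centralValue_vee red χ.2.1.irr (fun g x => hz.conj g x)]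
      have h1 := χ.2.2 (vee z) (vee_inZ hz)
      have h2 := hr (fun x : G => z x) (fun g x => hz.conj g x)
      exact h1.trans h2⟩
  have hf : ∀ x, f (f x) = x := fun x => Subtype.ext (vee_vee x.1)
  have h := invol_mod f hf
  have e : Nat.card {x // f x = x} = numDzR p red G Q B := by
    unfold numDzR
    refine Nat.card_congr
      { toFun := fun x => ⟨x.1.1, x.1.2, fun g => ?_⟩
        invFun := fun x => ⟨⟨x.1, x.2.1⟩, Subtype.ext (funext fun g => ?_)⟩
        left_inv := fun x => rfl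
        right_inv := fun x => rfl }
    · have h1 : vee x.1.1 g = x.1.1 g := congrFun (congrArg Subtype.val x.2) g
      rw [vee_eq_conj x.1.2.1.irr] at h1
      exact Complex.conj_eq_iff_im.mp h1
    · change vee x.1 g = x.1 g
      rw [vee_eq_conj x.2.1.1.irr]
      exact Complex.conj_eq_iff_im.mpr (x.2.2 g)
  rw [e] at h
  exact h

theorem nav_par_iff [IsAlgClosed F] (p : ℕ) (red : integralClosure ℤ ℂ →+* F) (G : Subgroup Γ)
    {B : (G → F) → F} (hr : ∀ f : G → F, IsClassFun f → B (vee f) = B f) :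
    (numIBr G B ≡ ∑ᶠ c : Quotient (pSubgroupSetoid p Γ),
      if G ⊔ c.out.1 = ⊤ ∧ InDefect p G B c.out.1 then numDz p red G c.out.1 B else 0 [MOD 2]) ↔
    (numIBrSD G B ≡ ∑ᶠ c : Quotient (pSubgroupSetoid p Γ),
      if G ⊔ c.out.1 = ⊤ ∧ InDefect p G B c.out.1 then numDzR p red G c.out.1 B else 0
      [MOD 2]) := by
  have : Fintype (Quotient (pSubgroupSetoid p Γ)) := Fintype.ofFinite _
  have h1 := ibr_mod G hr
  have h2 : (∑ᶠ c : Quotient (pSubgroupSetoid p Γ),
      if G ⊔ c.out.1 = ⊤ ∧ InDefect p G B c.out.1 then numDz p red G c.out.1 B else 0) ≡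
      ∑ᶠ c : Quotient (pSubgroupSetoid p Γ),
      if G ⊔ c.out.1 = ⊤ ∧ InDefect p G B c.out.1 then numDzR p red G c.out.1 B else 0
      [MOD 2] := by
    rw [finsum_eq_sum_of_fintype, finsum_eq_sum_of_fintype]
    refine Nat.ModEq.sum fun c _ => ?_
    split_ifs
    · exact dz_mod p red G c.out.1 hr
    · rfl
  constructor
  · intro h
    exact h1.symm.trans (h.trans h2)
  · intro h
    exact h1.trans (h.trans h2.symm)

end

section

variable {p : ℕ} [hp : Fact p.Prime] {F : Type} [Field F] [IsAlgClosed F] [CharP F p]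

theorem up_real {G : Type} [Group G] {B : (G → F) → F}
    (hr : ∀ f : G → F, IsClassFun f → B (vee f) = B f) :
    ∀ f : (⊤ : Subgroup G) → F, IsClassFun f → up B (vee f) = up B f :=
  fun f hf => hr (fun x => f ⟨x, trivial⟩) (fun g x => hf ⟨g, trivial⟩ ⟨x, trivial⟩)

/-- **the four conditions** -/
theorem nav_tfae (hp2 : p ≠ 2) (red : integralClosure ℤ ℂ →+* F)
    (X : ∀ (G : Type) [Group G], Prop) (hX : Closed p X)
    (hwr : ∀ (G : Type) [Group G], X G → X (Wr G)) :
    List.TFAE [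
      ∀ (Γ : Type) [Group Γ] [Finite Γ] (N G : Subgroup Γ) [N.Normal] [G.Normal], N ≤ G → X N →
        IsPGroup p (Γ ⧸ N) → NavarroTheta p red G,
      ∀ (Γ : Type) [Group Γ] [Finite Γ] (N G : Subgroup Γ) [N.Normal] [G.Normal], N ≤ G → X N →
        IsPGroup p (Γ ⧸ N) → ∀ B : (G → F) → F, IsBlock B → IsInvBlock G B →
        (∀ f : G → F, IsClassFun f → B (fun x => f x⁻¹) = B f) →
        numIBr G B ≡ ∑ᶠ c : Quotient (pSubgroupSetoid p Γ),
          if G ⊔ c.out.1 = ⊤ ∧ InDefect p G B c.out.1 then numDz p red G c.out.1 B else 0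
          [MOD 2],
      ∀ (Γ : Type) [Group Γ] [Finite Γ] (N G : Subgroup Γ) [N.Normal] [G.Normal], N ≤ G → X N →
        IsPGroup p (Γ ⧸ N) → ∀ B : (G → F) → F, IsBlock B → IsInvBlock G B →
        (∀ f : G → F, IsClassFun f → B (fun x => f x⁻¹) = B f) →
        numIBrSD G B ≡ ∑ᶠ c : Quotient (pSubgroupSetoid p Γ),
          if G ⊔ c.out.1 = ⊤ ∧ InDefect p G B c.out.1 then numDzR p red G c.out.1 B else 0
          [MOD 2],
      ∀ (H : Type) [Group H] [Finite H], X H → Reduced p H → ∀ B : (H → F) → F, IsBlock B →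
        (∀ f : H → F, IsClassFun f → B (fun x => f x⁻¹) = B f) →
        numSelfDual B ≡ ∑ᶠ c : Quotient (pSubgroupSetoid p H), numRealWt p red c.out.1 B
          [MOD 2]] := by
  tfae_have 1 → 2 := by
    intro h Γ _ _ N G _ _ hNG hN hq B hB hI _
    rw [h Γ N G hNG hN hq B hB hI]
  tfae_have 2 → 3 := by
    intro h Γ _ _ N G _ _ hNG hN hq B hB hI hr
    exact (nav_par_iff p red G hr).mp (h Γ N G hNG hN hq B hB hI hr)
  tfae_have 3 → 4 := by
    intro h H _ _ hH _ B hB hr
    have h1 := (nav_par_iff p red (⊤ : Subgroup H) (up_real hr)).mpr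
      (h H ⊤ ⊤ le_rfl (hX.iso _ _ hH ⟨Subgroup.topEquiv.symm⟩) (pgroup_top p H) (up B)
        (up_block hB) (up_inv B) (up_real hr))
    refine (par_iff p red hr).mp ?_
    have e1 : numIBr (⊤ : Subgroup H) (up B) = numIrrBlock B := numIBr_eq (up B)
    have e2 : (∑ᶠ c : Quotient (pSubgroupSetoid p H),
        if (⊤ : Subgroup H) ⊔ c.out.1 = ⊤ ∧ InDefect p ⊤ (up B) c.out.1 then
          numDz p red (⊤ : Subgroup H) c.out.1 (up B) else 0) =
        ∑ᶠ c : Quotient (pSubgroupSetoid p H), numWtBlock p red c.out.1 B := by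
      refine finsum_congr fun c => ?_
      have e3 : numDz p red (⊤ : Subgroup H) c.out.1 (up B) = numWtBlock p red c.out.1 B :=
        numDz_eq p red c.out.1 (up B)
      by_cases h2 : InDefect p ⊤ (up B) c.out.1
      · rw [if_pos ⟨top_sup_eq _, h2⟩, e3]
      · rw [if_neg (fun h' => h2 h'.2), ← e3]
        by_contra h3
        exact h2 (wdef' p F red H ⊤ (up B) (up_block hB) (up_inv B) c.out.1 c.out.2
          (fun h => h3 h.symm))
    rw [e1, e2] at h1
    exact h1
  tfae_have 4 → 1 := by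
    intro h
    refine (block_strong red X hX).mp fun H _ _ hH _ => ?_
    rw [theta_iff, ← bawc_iff]
    exact main_par red X hp2 hX hwr (fun G _ _ hG hR B hB hr =>
      (par_iff p red hr).mpr (h G hG hR B hB hr)) H hH
  tfae_finish

end

end Pool.Agent.E8helper46.AW
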