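import Pool.Agent.E8helper46.AW.Sym

/-!
# The parity statement: reduction to groups without normal `p`-subgroups and normal subgroups of
index `p`
-/

set_option autoImplicit false
set_option linter.unusedSectionVars false

open scoped BigOperators Classical

noncomputable section

namespace Pool.Agent.E8helper46.AW

open Pool.Agent.Y63.NV Pool.Agent.Y286.NV Pool.Agent.Y63.NV.B286
open Pool.Agent.Y63.AWC (IsIrreducibleCharacter pSubgroupSetoid)

section

variable {F : Type} [Field F] {Γ : Type} [Group Γ]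

theorem push_vee (M : Subgroup Γ) [M.Normal] {z : Γ → F} (hs : vee z = z) :
    vee (push M z) = push M z := by
  funext x
  unfold vee push
  rw [← finsum_comp_equiv (Equiv.inv Γ)]
  refine finsum_congr fun g => ?_
  change (if ((g⁻¹ : Γ) : Γ ⧸ M) = x⁻¹ then z g⁻¹ else 0) = if (g : Γ ⧸ M) = x then z g else 0
  have h1 : z g⁻¹ = z g := congrFun hs g
  have h2 : ((g⁻¹ : Γ) : Γ ⧸ M) = x⁻¹ ↔ (g : Γ ⧸ M) = x := by
    rw [QuotientGroup.mk_inv, inv_inj]
  rw [h1]
  by_cases h : (g : Γ ⧸ M) = x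
  · rw [if_pos h, if_pos (h2.mpr h)]
  · rw [if_neg h, if_neg (fun h' => h (h2.mp h'))]

variable {p : ℕ} [Fact p.Prime] [IsAlgClosed F] [CharP F p] [Finite Γ]

/-- quotients by normal `p`-subgroups -/
theorem quot_step (red : integralClosure ℤ ℂ →+* F) (M : Subgroup Γ) [M.Normal]
    (hM : IsPGroup p M) (h : Par p red (Γ ⧸ M)) : Par p red Γ := by
  refine par_of_sym red (⊤ : Subgroup Γ) (fun B B' _ _ h f hf => h f ⟨hf, fun x hx =>
    absurd (Subgroup.mem_top x) hx⟩) fun z hz hs c => ?_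
  obtain ⟨h1, h2⟩ := parts.lq p F Γ ⊤ M z hM hz c
  have h3 := parts.nq p F red Γ ⊤ M z hM hz c
  have e1 : (⊤ : Subgroup Γ).map (QuotientGroup.mk' M) = ⊤ :=
    Subgroup.map_top_of_surjective _ (QuotientGroup.mk'_surjective M)
  rw [e1] at h1 h2 h3
  have h4 := base2 red (Γ ⧸ M) h (push M z) (fun g x => h1.conj g x) (push_vee M hs) c
  rw [h2, h3, ← mul_sub]
  have e2 : (Nat.card Γ : ℤ) = (Nat.card (Γ ⧸ M) : ℤ) * Nat.card M := by
    exact_mod_cast Subgroup.card_eq_card_quotient_mul_card_subgroup M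
  rw [e2]
  have e3 : (2 : ℤ) * ((Nat.card (Γ ⧸ M) : ℤ) * Nat.card M) =
      Nat.card M * (2 * (Nat.card (Γ ⧸ M) : ℤ)) := by ring
  rw [e3]
  exact mul_dvd_mul_left _ h4

theorem lsum_dvd (G : Subgroup Γ) (z : Γ → F) (c : F) :
    (Nat.card Γ : ℤ) ∣ Lsum G (⊤ : Subgroup Γ) z c := by
  unfold Lsum
  split_ifs
  · rw [Subgroup.card_top]
    exact dvd_mul_right _ _
  · exact dvd_zero _

theorem wsum_dvd (red : integralClosure ℤ ℂ →+* F) (G : Subgroup Γ) [G.Normal] {z : Γ → F}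
    (hz : IsClassFun z) (c : F) : (Nat.card Γ : ℤ) ∣ Wsum p red G (⊤ : Subgroup Γ) z c := by
  set f : Subgroup Γ → ℕ := fun Q => if G ⊔ Q = ⊤ then
    Nw p red (Q.subgroupOf (Subgroup.normalizer (Q : Set Γ))) (fun x => z x) c else 0 with hf
  have hfc : ∀ (g : Γ) (Q : Subgroup Γ), f (Q.map (MulAut.conj g).toMonoidHom) = f Q := by
    intro g Q
    simp only [hf]
    rw [Pool.Agent.Y63.NV.B48B.nw_conj p red hz c g Q, propext (sup_conj G g Q)]
  have h1 := orbit_weights p f hfc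
  have : Fintype {Q : Subgroup Γ // IsPGroup p Q} := Fintype.ofFinite _
  have : Fintype (Subgroup Γ) := Fintype.ofFinite _
  have hW : Wsum p red G ⊤ z c = (Nat.card Γ : ℤ) *
      ((∑ᶠ c : Quotient (pSubgroupSetoid p Γ), f c.out.1 : ℕ) : ℤ) := by
    rw [← Nat.cast_mul, h1]
    unfold Wsum
    rw [finsum_eq_sum_of_fintype, finsum_eq_sum_of_fintype, Nat.cast_sum]
    have h5 : ∀ Q : Subgroup Γ, (if IsPGroup p Q ∧ Q ≤ (⊤ : Subgroup Γ) ∧ G ⊔ Q = ⊤ then
        (Nat.card ↥((⊤ : Subgroup Γ) ⊓ Subgroup.normalizer (Q : Set Γ)) : ℤ) *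
        Nw p red (Q.subgroupOf (⊤ ⊓ Subgroup.normalizer (Q : Set Γ))) (fun x => z x) c else 0)
        = if IsPGroup p Q then ((Nat.card (Subgroup.normalizer (Q : Set Γ)) * f Q : ℕ) : ℤ)
          else 0 := by
      intro Q
      rw [top_inf_eq]
      by_cases hQ : IsPGroup p Q
      · by_cases hGQ : G ⊔ Q = ⊤
        · rw [if_pos ⟨hQ, le_top, hGQ⟩, if_pos hQ]
          simp only [hf]
          rw [if_pos hGQ, Nat.cast_mul]
        · rw [if_neg (fun h => hGQ h.2.2), if_pos hQ]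
          simp only [hf]
          rw [if_neg hGQ, mul_zero, Nat.cast_zero]
      · rw [if_neg (fun h => hQ h.1), if_neg hQ]
    rw [Finset.sum_congr rfl fun Q _ => h5 Q, ← Finset.sum_filter]
    exact Finset.sum_subtype (p := fun Q : Subgroup Γ => IsPGroup p Q)
      (Finset.univ.filter fun Q : Subgroup Γ => IsPGroup p Q) (by simp)
      (fun Q => ((Nat.card (Subgroup.normalizer (Q : Set Γ)) * f Q : ℕ) : ℤ))
  rw [hW]
  exact dvd_mul_right _ _

/-- extensions of index `p` -/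
theorem index_step (hp2 : p ≠ 2) (red : integralClosure ℤ ℂ →+* F) (G : Subgroup Γ) [G.Normal]
    (hi : Nat.card (Γ ⧸ G) = p) (h : Par p red G) : Par p red Γ := by
  refine par_of_sym red G (fun B B' hB hB' h f hf => frob p hi hB hB' h f hf)
    fun z hz hs c => ?_
  have h1 := pell' p F Γ G z c hi hz
  have h2 := pewL' p F red Γ G z c hi hz
  have h4 := base2 red G h (fun x : G => z x) (fun g x => hz.conj g x)
    (by funext x; exact congrFun hs x) c
  obtain ⟨a, ha⟩ := h4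
  obtain ⟨b1, hb1⟩ := lsum_dvd G z c
  obtain ⟨b2, hb2⟩ := wsum_dvd (p := p) red G hz.conj c
  obtain ⟨d1, hd1⟩ := lsum_dvd (⊤ : Subgroup Γ) z c
  obtain ⟨d2, hd2⟩ := wsum_dvd (p := p) red (⊤ : Subgroup Γ) hz.conj c
  have hcard : (Nat.card Γ : ℤ) = p * Nat.card G := by
    have := Subgroup.card_eq_card_quotient_mul_card_subgroup G
    rw [hi] at this
    exact_mod_cast this
  obtain ⟨m, hm⟩ : ∃ m : ℕ, p = 2 * m + 1 := by
    have := (Fact.out : p.Prime).eq_two_or_odd'.resolve_left hp2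
    exact this
  have h6 : (p : ℤ) * (Lsum (⊤ : Subgroup Γ) ⊤ z c - Wsum p red (⊤ : Subgroup Γ) ⊤ z c) =
      Nat.card Γ * (2 * (a + m * (b1 - b2))) := by
    have e1 : (p : ℤ) - 1 = 2 * m := by
      rw [hm]
      push_cast
      ring
    have e2 : (p : ℤ) * (Lsum (⊤ : Subgroup Γ) ⊤ z c - Wsum p red (⊤ : Subgroup Γ) ⊤ z c) =
        p * (Lsum (⊤ : Subgroup G) ⊤ (fun x => z x) c -
          Wsum p red (⊤ : Subgroup G) ⊤ (fun x => z x) c) +
        (p - 1) * (Lsum G ⊤ z c - Wsum p red G ⊤ z c) := by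
      linear_combination h1 - h2
    rw [e2, ha, hb1, hb2, e1, hcard]
    ring
  rw [hd1, hd2] at h6 ⊢
  have hpos : (Nat.card Γ : ℤ) ≠ 0 := by exact_mod_cast Nat.card_pos.ne'
  have h7 : (p : ℤ) * (d1 - d2) = 2 * (a + m * (b1 - b2)) := by
    apply mul_left_cancel₀ hpos
    linear_combination h6
  have h8 : (2 : ℤ) ∣ d1 - d2 := by
    have h9 : (2 : ℤ) ∣ (p : ℤ) * (d1 - d2) := ⟨_, h7⟩
    have h10 : IsCoprime (2 : ℤ) (p : ℤ) := by
      rw [hm]
      exact ⟨-m, 1, by push_cast; ring⟩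
    exact h10.dvd_of_dvd_mul_left h9
  rw [← mul_sub, mul_comm (2 : ℤ)]
  exact mul_dvd_mul_left _ h8

end

/-- **Reduction of the parity statement** -/
theorem par_reduction {p : ℕ} [Fact p.Prime] (hp2 : p ≠ 2) {F : Type} [Field F] [IsAlgClosed F]
    [CharP F p] (red : integralClosure ℤ ℂ →+* F) (X : ∀ (H : Type) [Group H], Prop)
    (hX : Closed p X)
    (h : ∀ (H : Type) [Group H] [Finite H], X H → Reduced p H → Par p red H) :
    ∀ (n : ℕ) (Γ : Type) [Group Γ] [Finite Γ], Nat.card Γ ≤ n → X Γ → Par p red Γ := by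
  intro n
  induction n with
  | zero =>
    intro Γ _ _ hn
    have := Nat.card_pos (α := Γ)
    omega
  | succ n ih =>
    intro Γ _ _ hn hΓ
    by_cases hM : ∃ M : Subgroup Γ, M.Normal ∧ IsPGroup p M ∧ M ≠ ⊥
    · obtain ⟨M, hMn, hMp, hM1⟩ := hM
      refine quot_step red M hMp (ih (Γ ⧸ M) ?_ (hX.quot Γ hΓ M hMp))
      have e1 := Subgroup.card_eq_card_quotient_mul_card_subgroup M
      have e2 : 1 < Nat.card M := (Subgroup.one_lt_card_iff_ne_bot M).mpr hM1
      have e3 : 0 < Nat.card (Γ ⧸ M) := Nat.card_pos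
      by_contra hlt
      push Not at hlt
      have : Nat.card (Γ ⧸ M) * 2 ≤ Nat.card Γ := by
        rw [e1]
        exact Nat.mul_le_mul_left _ e2
      omega
    by_cases hN : ∃ N : Subgroup Γ, N.Normal ∧ N.index = p
    · obtain ⟨N, hNn, hNi⟩ := hN
      have hlt : Nat.card N < Nat.card Γ := by
        have e1 := N.card_mul_index
        have e2 : 2 ≤ p := (Fact.out : p.Prime).two_le
        have e3 : 0 < Nat.card N := Nat.card_pos
        rw [hNi] at e1
        nlinarith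
      exact index_step hp2 red N hNi (ih N (by omega) (hX.sub Γ hΓ N))
    · push Not at hM hN
      exact h Γ hΓ ⟨hN, hM⟩

end Pool.Agent.E8helper46.AW
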