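import Pool.Agent.E8helper46.AW.Base2

/-!
# From symmetric class functions to real blocks, modulo two; the reduction

(adapted from `Pool/Agent/Y63/NV/FinL286.lean` and `Pool/Agent/Y63/NV/PeL.lean`)
-/

set_option autoImplicit false
set_option linter.unusedSectionVars false

open scoped BigOperators Classical

noncomputable section

namespace Pool.Agent.E8helper46.AW

open Pool.Agent.Y63.NV Pool.Agent.Y286.NV Pool.Agent.Y63.NV.B286
open Pool.Agent.Y63.AWC (IsIrreducibleCharacter pSubgroupSetoid)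
open Pool.Agent.Helper884.IC (IsIrrChar irr_finite)

section

variable {F : Type} [Field F] {Γ : Type} [Group Γ]

theorem conv_comm' {f g : Γ → F} (hg : IsClassFun g) : conv f g = conv g f := by
  funext x
  unfold conv
  rw [← finsum_comp_equiv ((Equiv.inv Γ).trans (Equiv.mulLeft x)) (f := fun y => g y * f (y⁻¹ * x))]
  refine finsum_congr fun y => ?_
  change f y * g (y⁻¹ * x) = g (x * y⁻¹) * f ((x * y⁻¹)⁻¹ * x)
  have e : (x * y⁻¹)⁻¹ * x = y := by group
  rw [e, class_comm hg, mul_comm]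

theorem vee_inZ {G : Subgroup Γ} {z : Γ → F} (hz : InZ G z) : InZ G (vee z) :=
  ⟨fun g x => vee_class hz.conj g x, fun x hx => hz.supp x⁻¹ fun h => hx (by
    have := G.inv_mem h
    rwa [inv_inv] at this)⟩

theorem conv_inZ {G : Subgroup Γ} {z w : Γ → F} (hz : InZ G z) (hw : InZ G w) :
    InZ G (conv z w) := by
  refine ⟨conv_class hz.conj hw.conj, fun x hx => ?_⟩
  unfold conv
  have h0 : ∀ y : Γ, z y * w (y⁻¹ * x) = 0 := by
    intro y
    by_cases hy : y ∈ G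
    · rw [hw.supp, mul_zero]
      intro h
      apply hx
      have := G.mul_mem hy h
      rwa [mul_inv_cancel_left] at this
    · rw [hz.supp y hy, zero_mul]
  rw [finsum_congr h0, finsum_zero]

theorem add_inZ {G : Subgroup Γ} {z w : Γ → F} (hz : InZ G z) (hw : InZ G w) : InZ G (z + w) :=
  ⟨fun g x => by rw [Pi.add_apply, Pi.add_apply, hz.conj, hw.conj],
    fun x hx => by rw [Pi.add_apply, hz.supp x hx, hw.supp x hx, add_zero]⟩

theorem vee_add (f g : Γ → F) : vee (f + g) = vee f + vee g := rfl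

/-- a real block is determined by its values at the symmetric elements -/
theorem sym_det {G : Subgroup Γ} {B B' : (Γ → F) → F} (hB : IsBlock B) (hB' : IsBlock B')
    (hr : ∀ f : Γ → F, IsClassFun f → B (vee f) = B f)
    (h : ∀ z : Γ → F, InZ G z → vee z = z → B' z = B z) (z : Γ → F) (hz : InZ G z) :
    B' z = B z := by
  have hv := vee_inZ hz
  have h1 := h _ (add_inZ hz hv) (by rw [vee_add, vee_vee]; exact add_comm _ _)
  have h2 := h _ (conv_inZ hz hv) (by
    rw [vee_conv hv.conj, vee_vee]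
    exact conv_comm' hz.conj)
  rw [hB.add _ _ hz.conj hv.conj, hB'.add _ _ hz.conj hv.conj, hr z hz.conj] at h1
  rw [hB.mul _ _ hz.conj hv.conj, hB'.mul _ _ hz.conj hv.conj, hr z hz.conj] at h2
  have h3 : (B' z - B z) ^ 2 = 0 := by
    linear_combination (B' z) * h1 - h2
  exact sub_eq_zero.mp (pow_eq_zero_iff two_ne_zero |>.mp h3)

/-- the space of the symmetric central elements -/
def ZGs (F : Type) [Field F] (G : Subgroup Γ) : Submodule F (Γ → F) where
  carrier := {z | InZ G z ∧ vee z = z}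
  zero_mem' := ⟨(ZG F G).zero_mem, rfl⟩
  add_mem' := by
    rintro a b ⟨ha, ha'⟩ ⟨hb, hb'⟩
    exact ⟨(ZG F G).add_mem ha hb, by rw [vee_add, ha', hb']⟩
  smul_mem' := by
    rintro c a ⟨ha, ha'⟩
    refine ⟨(ZG F G).smul_mem c ha, ?_⟩
    change c • vee a = c • a
    rw [ha']

theorem zgs_le (G : Subgroup Γ) : ZGs F G ≤ ZG F G := fun _ h => h.1

variable {p : ℕ} [Fact p.Prime] [IsAlgClosed F] [CharP F p] [Finite Γ]

/-- **from symmetric elements to real blocks**, modulo two -/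
theorem par_of_sym (red : integralClosure ℤ ℂ →+* F) (G : Subgroup Γ)
    (hdet : ∀ B B' : (Γ → F) → F, IsBlock B → IsBlock B' →
      (∀ z : Γ → F, InZ G z → B z = B' z) → ∀ f : Γ → F, IsClassFun f → B f = B' f)
    (hLW : ∀ (z : Γ → F), InZ G z → vee z = z → ∀ c : F, (2 : ℤ) * Nat.card Γ ∣
      Lsum (⊤ : Subgroup Γ) ⊤ z c - Wsum p red (⊤ : Subgroup Γ) ⊤ z c) : Par p red Γ := by
  intro B₀ hB₀ hr₀
  have h0 : S_IRR := Pool.Agent.Y914.NV.irr
  have h1 : S_SCHUR := schur'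
  have hwb : S_WBLK := wblk'
  set B : ((⊤ : Subgroup Γ) → F) → F := up B₀ with hBdef
  have hB : IsBlock B := up_block hB₀
  have hfl : (fun f : Γ → F => B (fun x : (⊤ : Subgroup Γ) => f x)) = B₀ := rfl
  have : Fintype Γ := Fintype.ofFinite Γ
  have hInf : Infinite F := inferInstance
  -- the blocks of the irreducible traces
  have hfinφ : Finite {φ : (⊤ : Subgroup Γ) → F // IsIrrTrace φ} :=
    (h0 F (⊤ : Subgroup Γ)).1.to_subtype
  choose hne Bφ hBφ hact using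
    fun φ : {φ : (⊤ : Subgroup Γ) → F // IsIrrTrace φ} => h1 F (⊤ : Subgroup Γ) φ.1 φ.2
  have hfinχ : ∀ Q : Subgroup Γ, Finite {χ : Subgroup.normalizer (Q : Set Γ) → ℂ //
      IsIrreducibleCharacter χ} := by
    intro Q
    have : Fintype (Subgroup.normalizer (Q : Set Γ)) := Fintype.ofFinite _
    exact (irr_finite (G := Subgroup.normalizer (Q : Set Γ))).to_subtype
  -- the labels
  let I : Type := {φ : (⊤ : Subgroup Γ) → F // IsIrrTrace φ} ⊕
    (Σ Q : Subgroup Γ, {χ : Subgroup.normalizer (Q : Set Γ) → ℂ // IsIrreducibleCharacter χ})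
  let ι : ZGs F G →ₗ[F] ZG F G := Submodule.inclusion (zgs_le G)
  let μ : I → (ZGs F G →ₗ[F] F) := fun i =>
    Sum.elim (fun φ => (blkN (hBφ φ)).comp ι) (fun q => (wtF G red _ q.2.1).comp ι) i
  obtain ⟨z, hz⟩ := exists_sep μ ((blkN hB).comp ι)
  set c : F := B₀ z.1 with hc
  have hLWz := hLW z.1 z.2.1 z.2.2 c
  -- blocks which agree with `B₀` on the symmetric elements
  have hdet2 : ∀ B' : (Γ → F) → F, IsBlock B' →
      (∀ z' : Γ → F, InZ G z' → vee z' = z' → B' z' = B₀ z') →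
      ∀ f : Γ → F, IsClassFun f → B' f = B₀ f := by
    intro B' hB' h
    exact hdet B' B₀ hB' hB₀ fun z' hz' => sym_det hB₀ hB' hr₀ h z' hz'
  -- the left side
  have hL : Lsum (⊤ : Subgroup Γ) ⊤ z.1 c = (Nat.card Γ : ℤ) * numIBr (⊤ : Subgroup Γ) B := by
    unfold Lsum
    rw [if_pos (sup_top_eq (⊤ : Subgroup Γ)), inf_top_eq]
    have e1 : Nat.card (⊤ : Subgroup Γ) = Nat.card Γ := Nat.card_congr Subgroup.topEquiv.toEquiv
    rw [e1]
    congr 2
    unfold Lnum numIBr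
    refine Nat.card_congr (Equiv.subtypeEquivRight fun φ => ?_)
    constructor
    · rintro ⟨hφ, hinv, hzφ⟩
      refine ⟨hφ, hinv, ?_⟩
      obtain ⟨y, hy⟩ := hne ⟨φ, hφ⟩
      have h4 : Bφ ⟨φ, hφ⟩ (fun x : (⊤ : Subgroup Γ) => z.1 x) = c := by
        have h5 := hact ⟨φ, hφ⟩ (fun x : (⊤ : Subgroup Γ) => z.1 x) (res_classFun z.2.1 ⊤) y
        have h6 := hzφ y
        exact mul_right_cancel₀ hy (h5.symm.trans h6)
      have h5 : (blkN (G := G) (hBφ ⟨φ, hφ⟩)).comp ι = (blkN hB).comp ι :=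
        hz (Sum.inl ⟨φ, hφ⟩) h4
      have h6 := hdet2 _ (flat_block (hBφ ⟨φ, hφ⟩)) (fun z' hz' hs' =>
        LinearMap.congr_fun h5 (⟨z', hz', hs'⟩ : ZGs F G))
      intro f hf x
      have h7 : Bφ ⟨φ, hφ⟩ f = B f := by
        have h8 := h6 (fun x : Γ => f ⟨x, trivial⟩) (fun g x => hf ⟨g, trivial⟩ ⟨x, trivial⟩)
        exact h8
      rw [← h7]
      exact hact ⟨φ, hφ⟩ f hf x
    · rintro ⟨hφ, hinv, hzφ⟩
      exact ⟨hφ, hinv, fun x => hzφ _ (res_classFun z.2.1 ⊤) x⟩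
  -- the right side
  set f : Subgroup Γ → ℕ := fun Q => numDz p red (⊤ : Subgroup Γ) Q B with hf
  have hfc : ∀ (g : Γ) (Q : Subgroup Γ), f (Q.map (MulAut.conj g).toMonoidHom) = f Q := by
    intro g Q
    simp only [hf]
    rw [numDz_conj]
  have hNw : ∀ Q : Subgroup Γ, IsPGroup p Q →
      Nw p red (Q.subgroupOf (⊤ ⊓ Subgroup.normalizer (Q : Set Γ)))
      (fun x => z.1 x) c = numDz p red (⊤ : Subgroup Γ) Q B := by
    intro Q hQ
    rw [top_inf_eq]
    unfold Nw numDz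
    refine Nat.card_congr (Equiv.subtypeEquivRight fun χ => ?_)
    constructor
    · rintro ⟨hw, hv⟩
      refine ⟨hw, fun z' hz' => ?_⟩
      have h5 : (wtF G red _ χ).comp ι = (blkN hB).comp ι := hz (Sum.inr ⟨Q, χ, hw.irr⟩) hv
      exact hdet2 _ (hwb p F red Γ Q χ hQ hw) (fun z'' hz'' hs'' =>
        LinearMap.congr_fun h5 (⟨z'', hz'', hs''⟩ : ZGs F G)) z' hz'.conj
    · rintro ⟨hw, hv⟩
      exact ⟨hw, hv z.1 ⟨z.2.1.conj, fun x hx => absurd trivial hx⟩⟩
  have hW : Wsum p red (⊤ : Subgroup Γ) ⊤ z.1 c = (Nat.card Γ : ℤ) *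
      ((∑ᶠ c : Quotient (pSubgroupSetoid p Γ), f c.out.1 : ℕ) : ℤ) := by
    rw [← Nat.cast_mul, orbit_weights p f hfc]
    have : Fintype {Q : Subgroup Γ // IsPGroup p Q} := Fintype.ofFinite _
    have : Fintype (Subgroup Γ) := Fintype.ofFinite _
    unfold Wsum
    rw [finsum_eq_sum_of_fintype, finsum_eq_sum_of_fintype, Nat.cast_sum]
    have h5 : ∀ Q : Subgroup Γ, (if IsPGroup p Q ∧ Q ≤ (⊤ : Subgroup Γ) ∧
        (⊤ : Subgroup Γ) ⊔ Q = ⊤ then
        (Nat.card ↥((⊤ : Subgroup Γ) ⊓ Subgroup.normalizer (Q : Set Γ)) : ℤ) *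
        Nw p red (Q.subgroupOf (⊤ ⊓ Subgroup.normalizer (Q : Set Γ))) (fun x => z.1 x) c else 0)
        = if IsPGroup p Q then ((Nat.card (Subgroup.normalizer (Q : Set Γ)) * f Q : ℕ) : ℤ)
          else 0 := by
      intro Q
      have e2 : Nat.card ↥((⊤ : Subgroup Γ) ⊓ Subgroup.normalizer (Q : Set Γ)) =
          Nat.card (Subgroup.normalizer (Q : Set Γ)) := by rw [top_inf_eq]
      rw [e2]
      by_cases hQ : IsPGroup p Q
      · rw [if_pos ⟨hQ, le_top, top_sup_eq Q⟩, if_pos hQ, hNw Q hQ]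
        simp only [hf]
        rw [Nat.cast_mul]
      · rw [if_neg (fun h => hQ h.1), if_neg hQ]
    rw [Finset.sum_congr rfl fun Q _ => h5 Q, ← Finset.sum_filter]
    exact Finset.sum_subtype (p := fun Q : Subgroup Γ => IsPGroup p Q)
      (Finset.univ.filter fun Q : Subgroup Γ => IsPGroup p Q) (by simp)
      (fun Q => ((Nat.card (Subgroup.normalizer (Q : Set Γ)) * f Q : ℕ) : ℤ))
  rw [hL, hW, ← mul_sub, mul_comm (2 : ℤ)] at hLWz
  have hpos : (Nat.card Γ : ℤ) ≠ 0 := by exact_mod_cast Nat.card_pos.ne'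
  have h6 := (mul_dvd_mul_iff_left hpos).mp hLWz
  have e3 : numIBr (⊤ : Subgroup Γ) B = numIrrBlock B₀ := numIBr_eq B
  have e4 : ∑ᶠ c : Quotient (pSubgroupSetoid p Γ), f c.out.1 =
      ∑ᶠ c : Quotient (pSubgroupSetoid p Γ), numWtBlock p red c.out.1 B₀ :=
    finsum_congr fun c => numDz_eq p red c.out.1 B
  rw [e3, e4] at h6
  have h7 : (2 : ℤ) ∣ ((numIrrBlock B₀ : ℕ) : ℤ) -
      ((∑ᶠ c : Quotient (pSubgroupSetoid p Γ), numWtBlock p red c.out.1 B₀ : ℕ) : ℤ) := h6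
  exact (Nat.modEq_iff_dvd.mpr h7).symm

end

end Pool.Agent.E8helper46.AW
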