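import Pool.Agent.E8helper46.AW.Exch

/-!
# Alternating sums of blocks of positive defect vanish
-/

set_option autoImplicit false
set_option linter.unusedSectionVars false

open scoped BigOperators Classical

noncomputable section

namespace Pool.Agent.E8helper46.AW

open Pool.Agent.Y63.NV
open Pool.Agent.Y63.KR (IsPChain chainStabilizer alternatingSum)
open Pool.Agent.Y63.AWC (IsIrreducibleCharacter)
open Pool.Agent.Q288.MB (gal WrM cc gal_WrS gal_WrM WrM_comm gal_block wrM_block gal_mul)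
open Pool.Agent.Q90.WR
open Pool.Agent.H254R3.IN (IsIrr)
open Pool.Agent.Q259.BW (WrS)

theorem gal_cc_cc {G : Type} (B : Set (G → ℂ)) : gal cc (gal cc B) = B := by
  ext χ
  constructor
  · rintro ⟨_, ⟨ψ, hψ, rfl⟩, rfl⟩
    have e : (fun g => cc (cc (ψ g))) = ψ := funext fun g => Complex.conj_conj (ψ g)
    rw [e]
    exact hψ
  · intro h
    exact ⟨_, ⟨χ, h, rfl⟩, (funext fun g => (Complex.conj_conj (χ g)).symm)⟩

section

variable {p : ℕ} [hp : Fact p.Prime] {O : ValuationSubring ℂ}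

theorem good_gal {G : Type} [Group G] [Finite G] {B : Set (G → ℂ)} (h : GoodB O B)
    (σ : ℂ ≃+* ℂ) : GoodB O (gal σ B) := by
  have := Fintype.ofFinite G
  refine ⟨gal_block σ h.block, ?_⟩
  rintro _ ⟨ψ, hψ, rfl⟩
  obtain ⟨n, -, hn⟩ := H254R3.IN.IsIrr.deg (h.block.irr ψ hψ)
  have h1 := h.pos ψ hψ
  change (Nat.card G : ℂ) / σ (ψ 1) ∈ O.nonunits
  rw [← hn] at h1 ⊢
  rw [map_natCast]
  exact h1

theorem good_mix {G : Type} [Group G] [Finite G] {B₁ B₂ : Set (G → ℂ)} (h₁ : GoodB O B₁)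
    (h₂ : GoodB O B₂) (hne : B₁ ≠ B₂) : GoodB O (WrM B₁ B₂) := by
  have := Fintype.ofFinite G
  refine ⟨wrM_block h₁.block h₂.block hne, ?_⟩
  rw [Wr.card]
  rintro χ ⟨θ₁, t1, θ₂, t2, rfl⟩
  have e : ((2 * Nat.card G ^ 2 : ℕ) : ℂ) / ind2 θ₁ θ₂ 1 =
      ((Nat.card G : ℂ) / θ₁ 1) * ((Nat.card G : ℂ) / θ₂ 1) := by
    change _ / (θ₁ 1 * θ₂ 1 + θ₂ 1 * θ₁ 1) = _
    have n1 := H254R3.IN.IsIrr.one_ne (h₁.block.irr _ t1)
    have n2 := H254R3.IN.IsIrr.one_ne (h₂.block.irr _ t2)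
    have e3 : θ₁ 1 * θ₂ 1 + θ₂ 1 * θ₁ 1 = 2 * (θ₁ 1 * θ₂ 1) := by ring
    rw [e3]
    push_cast
    field_simp
  rw [e]
  exact mul_nonunits (h₁.pos _ t1) (h₂.pos _ t2)

theorem real_WrS {G : Type} [Group G] [Fintype G] {B : Set (G → ℂ)} (h : PD.RealSet B) :
    PD.RealSet (WrS B) := by
  rw [PD.realSet_iff] at h ⊢
  rw [gal_WrS, h]

theorem real_mix {G : Type} [Group G] [Fintype G] (B : Set (G → ℂ)) :
    PD.RealSet (WrM B (gal cc B)) := by
  rw [PD.realSet_iff, gal_WrM, gal_cc_cc, WrM_comm]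

end

section

variable {p : ℕ} [hp : Fact p.Prime] {F : Type} [Field F] [IsAlgClosed F] [CharP F p]
  {red : integralClosure ℤ ℂ →+* F} {O : ValuationSubring ℂ}
  {X : ∀ (G : Type) [Group G], Prop}

theorem real_even (hO : Above red O)
    (hsub : ∀ (G : Type) [Group G], X G → ∀ H : Subgroup G, X H)
    (hpar : ∀ (G : Type) [Group G] [Finite G], X G → Par p red G)
    (G : Type) [Group G] [Finite G] (hG : X G) {B : Set (G → ℂ)} (hB : GoodB O B)
    (hr : PD.RealSet B) : (2 : ℤ) ∣ blkAlt p O B := by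
  obtain ⟨χ₀, h0, hi, he⟩ := ordB_cv hO hB.block
  have h1 : χ₀ ∈ ordB red (centralValue red χ₀) := by rw [he]; exact h0
  have hblk : IsBlock (centralValue red χ₀ : (G → F) → F) :=
    Pool.Agent.Y930.NV.cvh F red G χ₀ hi
  have hreal := (ordB_real (red := red) h1).mp (by rw [he]; exact hr)
  have h2 := kr_par red (fun σ _ => hpar _ (hsub G hG (chainStabilizer σ))) _ hblk hreal
  rw [alt_eq hO p h1, (numDz_zero_iff hO h1).mpr (by rw [he]; exact hB), he] at h2
  simpa using h2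

theorem levels (hp2 : p ≠ 2) (hpO : (p : ℂ) ∈ O.nonunits)
    (hwr : ∀ (G : Type) [Group G], X G → X (Wr G)) :
    ∀ (j : ℕ) (G : Type) [Group G] [Finite G] (B : Set (G → ℂ)), X G → GoodB O B →
      PD.RealSet B → X (WrN j G) ∧ Finite (WrN j G) ∧ GoodB O (WrSN j B) ∧
        PD.RealSet (WrSN j B) := by
  intro j
  induction j with
  | zero => exact fun G _ hf B h1 h2 h3 => ⟨h1, hf, h2, h3⟩
  | succ j ih =>
    intro G _ _ B h1 h2 h3
    have := Fintype.ofFinite G
    exact ih (Wr G) (WrS B) (hwr G h1) (h2.wr hp2 hpO)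
      (real_WrS h3)

/-- **the blocks of positive defect** -/
theorem all_zero (hp2 : p ≠ 2) (hO : Above red O)
    (hsub : ∀ (G : Type) [Group G], X G → ∀ H : Subgroup G, X H)
    (hwr : ∀ (G : Type) [Group G], X G → X (Wr G))
    (hpar : ∀ (G : Type) [Group G] [Finite G], X G → Par p red G)
    (G : Type) [Group G] [Finite G] (hG : X G) {B : Set (G → ℂ)} (hB : GoodB O B) :
    blkAlt p O B = 0 := by
  have hpO : (p : ℂ) ∈ O.nonunits := hO.p_mem
  have hreal : ∀ (G : Type) [Group G] [Finite G], X G → ∀ B : Set (G → ℂ), GoodB O B →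
      PD.RealSet B → blkAlt p O B = 0 := by
    intro G _ _ hG B hB hr
    refine eq_of_all fun a => ?_
    rw [sub_zero]
    refine ba_dvd hp2 hpO a G B hB fun j _ => ?_
    obtain ⟨h1, h2, h3, h4⟩ := levels hp2 hpO hwr j G B hG hB hr
    exact real_even hO hsub hpar (WrN j G) h1 h3 h4
  by_cases hr : gal cc B = B
  · exact hreal G hG B hB (PD.realSet_iff.mpr hr)
  · have := Fintype.ofFinite G
    have h1 := good_mix hB (good_gal hB cc) (Ne.symm hr)
    have h2 := hreal (Wr G) (hwr G hG) _ h1 (real_mix B)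
    rw [PD.blkAlt_mix hp2 hpO hB.block (gal_block cc hB.block) (Ne.symm hr),
      PD.blkAlt_gal cc hB.block] at h2
    exact mul_self_eq_zero.mp h2

end

end Pool.Agent.E8helper46.AW
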